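import Mathlib

/-!
MP_0d8f69_co, almost unimodal polygons: three consecutive distances determine the two radii.
-/

set_option autoImplicit false

namespace Pool.Agent.Lib.MP_0d8f69_coZ

theorem nsq (x y : ℂ) : dist x y ^ 2 = (x.re - y.re) ^ 2 + (x.im - y.im) ^ 2 := by
  rw [Complex.dist_eq, Complex.sq_norm, Complex.normSq_apply, Complex.sub_re, Complex.sub_im]
  ring

/-- `p`, `x` and the images `α x`, `α⁻¹ x`: the three distances determine `|p|² + |x|²` and `|p|² |x|²` -/
theorem radii {α p x q y p' x' q' y' : ℂ} (hα : ‖α‖ = 1) (h1 : α ≠ 1) (h2 : α ≠ -1)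
    (hq : q = α * x) (hy : x = α * y) (hq' : q' = α * x') (hy' : x' = α * y')
    (d0 : dist p x = dist p' x') (d1 : dist p q = dist p' q') (d2 : dist p y = dist p' y') :
    Complex.normSq p + Complex.normSq x = Complex.normSq p' + Complex.normSq x' ∧
      Complex.normSq p * Complex.normSq x = Complex.normSq p' * Complex.normSq x' := by
  have hs : α.re ^ 2 + α.im ^ 2 = 1 := by
    have : Complex.normSq α = 1 := by rw [Complex.normSq_eq_norm_sq, hα, one_pow]
    rw [Complex.normSq_apply] at this
    linarith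
  have him : α.im ≠ 0 := by
    intro h0
    rw [h0] at hs
    have h3 : (α.re - 1) * (α.re + 1) = 0 := by nlinarith
    rcases mul_eq_zero.1 h3 with h4 | h4
    · exact h1 (Complex.ext (by rw [Complex.one_re]; linarith) (by rw [Complex.one_im]; exact h0))
    · exact h2 (Complex.ext (by rw [Complex.neg_re, Complex.one_re]; linarith)
        (by rw [Complex.neg_im, Complex.one_im, neg_zero]; exact h0))
  have hre : 1 - α.re ≠ 0 := by
    intro h0
    apply him
    have : α.im ^ 2 = 0 := by nlinarith
    exact pow_eq_zero_iff two_ne_zero |>.1 this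
  -- `y = conj α * x`
  have hyr : ∀ {x y : ℂ}, x = α * y → y.re = α.re * x.re + α.im * x.im ∧ y.im = α.re * x.im - α.im * x.re := by
    intro x y h
    have e1 : x.re = α.re * y.re - α.im * y.im := by rw [h, Complex.mul_re]
    have e2 : x.im = α.re * y.im + α.im * y.re := by rw [h, Complex.mul_im]
    constructor
    · rw [e1, e2]; linear_combination (-y.re) * hs
    · rw [e1, e2]; linear_combination (-y.im) * hs
  obtain ⟨a1, a2⟩ := hyr hy
  obtain ⟨a1', a2'⟩ := hyr hy'
  have b1 : q.re = α.re * x.re - α.im * x.im := by rw [hq, Complex.mul_re]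
  have b2 : q.im = α.re * x.im + α.im * x.re := by rw [hq, Complex.mul_im]
  have b1' : q'.re = α.re * x'.re - α.im * x'.im := by rw [hq', Complex.mul_re]
  have b2' : q'.im = α.re * x'.im + α.im * x'.re := by rw [hq', Complex.mul_im]
  have c0 := nsq p x
  have c1 := nsq p q
  have c2 := nsq p y
  rw [d0, nsq p' x'] at c0
  rw [d1, nsq p' q', b1, b2, b1', b2'] at c1
  rw [d2, nsq p' y', a1, a2, a1', a2'] at c2
  -- P = |p|² + |x|², X = p·x, Y = p×x
  set P := p.re ^ 2 + p.im ^ 2 + x.re ^ 2 + x.im ^ 2 with hP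
  set P' := p'.re ^ 2 + p'.im ^ 2 + x'.re ^ 2 + x'.im ^ 2 with hP'
  set X := p.re * x.re + p.im * x.im with hX
  set X' := p'.re * x'.re + p'.im * x'.im with hX'
  set Y := p.re * x.im - p.im * x.re with hY
  set Y' := p'.re * x'.im - p'.im * x'.re with hY'
  have f0 : P - 2 * X = P' - 2 * X' := by
    rw [hP, hP', hX, hX']; linear_combination (-1 : ℝ) * c0
  have f1 : P - 2 * (α.re * X - α.im * Y) = P' - 2 * (α.re * X' - α.im * Y') := by
    rw [hP, hP', hX, hX', hY, hY']
    linear_combination (-1 : ℝ) * c1 + (x'.re ^ 2 + x'.im ^ 2 - x.re ^ 2 - x.im ^ 2) * hs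
  have f2 : P - 2 * (α.re * X + α.im * Y) = P' - 2 * (α.re * X' + α.im * Y') := by
    rw [hP, hP', hX, hX', hY, hY']
    linear_combination (-1 : ℝ) * c2 + (x'.re ^ 2 + x'.im ^ 2 - x.re ^ 2 - x.im ^ 2) * hs
  have gY : Y = Y' := by
    have : α.im * (Y - Y') = 0 := by linarith
    rcases mul_eq_zero.1 this with h | h
    · exact absurd h him
    · linarith
  have gX : X = X' := by
    have : (1 - α.re) * (X - X') = 0 := by
      rw [gY] at f1
      linarith
    rcases mul_eq_zero.1 this with h | h
    · exact absurd h hre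
    · linarith
  have gP : P = P' := by rw [gX] at f0; linarith
  constructor
  · rw [Complex.normSq_apply, Complex.normSq_apply, Complex.normSq_apply, Complex.normSq_apply]
    rw [hP, hP'] at gP
    linarith
  · rw [Complex.normSq_apply, Complex.normSq_apply, Complex.normSq_apply, Complex.normSq_apply]
    have i1 : (p.re * p.re + p.im * p.im) * (x.re * x.re + x.im * x.im) = X ^ 2 + Y ^ 2 := by
      rw [hX, hY]; ring
    have i2 : (p'.re * p'.re + p'.im * p'.im) * (x'.re * x'.re + x'.im * x'.im) = X' ^ 2 + Y' ^ 2 := by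
      rw [hX', hY']; ring
    rw [i1, i2, gX, gY]

theorem pair_eq {A B A' B' : ℝ} (h1 : A + B = A' + B') (h2 : A * B = A' * B') :
    (A = A' ∧ B = B') ∨ (A = B' ∧ B = A') := by
  have h3 : (A - A') * (A - B') = 0 := by
    have : B = A' + B' - A := by linarith
    rw [this] at h2
    linarith
  rcases mul_eq_zero.1 h3 with h | h
  · left
    constructor <;> linarith
  · right
    constructor <;> linarith

end Pool.Agent.Lib.MP_0d8f69_coZ
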