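import Mathlib

/-!
MP_0d8f69_co, almost unimodal polygons: if for almost all pairs the unordered pair of values at the two ends is a
function of the distance, the value is constant on almost all vertices.
-/

set_option autoImplicit false

namespace Pool.Agent.Lib.MP_0d8f69_coZ

open Finset

theorem card_offDiag_le {n : ℕ} [NeZero n] (A : Finset (ZMod n)) {h : ℕ} (hh : 2 * h + 1 ≤ n) :
    A.offDiag.card ≤ 2 * (((Finset.univ : Finset (ZMod n)) ×ˢ Finset.Icc 1 h).filter
      (fun x : ZMod n × ℕ => x.1 ∈ A ∧ x.1 + (x.2 : ZMod n) ∈ A)).card + n * (n - h - h - 1) := by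
  classical
  set E := ((Finset.univ : Finset (ZMod n)) ×ˢ Finset.Icc 1 h).filter
      (fun x : ZMod n × ℕ => x.1 ∈ A ∧ x.1 + (x.2 : ZMod n) ∈ A) with hE
  have hsub : A.offDiag ⊆ E.image (fun x => (x.1, x.1 + (x.2 : ZMod n))) ∪
      (E.image (fun x => (x.1 + (x.2 : ZMod n), x.1)) ∪
        ((Finset.univ : Finset (ZMod n)) ×ˢ Finset.Ioo h (n - h)).image (fun x => (x.1, x.1 + (x.2 : ZMod n)))) := by
    rintro ⟨i, j⟩ hx
    rw [mem_offDiag] at hx
    obtain ⟨hi, hj, hij⟩ := hx
    simp only at hi hj hij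
    have hs0 : (j - i).val ≠ 0 := by
      rw [Ne, ZMod.val_eq_zero, sub_eq_zero]
      exact fun e => hij e.symm
    have hsn : (j - i).val < n := ZMod.val_lt _
    have hsj : i + (((j - i).val : ℕ) : ZMod n) = j := by
      rw [ZMod.natCast_zmod_val, add_sub_cancel]
    set s := (j - i).val with hs
    rw [mem_union, mem_union]
    by_cases c1 : s ≤ h
    · left
      refine Finset.mem_image.2 ⟨(i, s), ?_, by rw [hsj]⟩
      rw [hE, mem_filter, mem_product, mem_Icc]
      refine ⟨⟨Finset.mem_univ _, by omega, c1⟩, hi, ?_⟩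
      simp only
      rw [hsj]
      exact hj
    · by_cases c2 : n - s ≤ h
      · right; left
        have hji : j + ((n - s : ℕ) : ZMod n) = i := by
          rw [Nat.cast_sub (by omega), ZMod.natCast_self, ← hsj]
          ring
        refine Finset.mem_image.2 ⟨(j, n - s), ?_, by simp only [hji]⟩
        rw [hE, mem_filter, mem_product, mem_Icc]
        refine ⟨⟨Finset.mem_univ _, by omega, c2⟩, hj, ?_⟩
        simp only
        rw [hji]
        exact hi
      · right; right
        refine Finset.mem_image.2 ⟨(i, s), ?_, by rw [hsj]⟩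
        rw [mem_product, mem_Ioo]
        exact ⟨Finset.mem_univ _, by omega, by omega⟩
  have c0 := Finset.card_le_card hsub
  have c1 := Finset.card_union_le (E.image (fun x => (x.1, x.1 + (x.2 : ZMod n))))
    (E.image (fun x => (x.1 + (x.2 : ZMod n), x.1)) ∪
        ((Finset.univ : Finset (ZMod n)) ×ˢ Finset.Ioo h (n - h)).image (fun x => (x.1, x.1 + (x.2 : ZMod n))))
  have c2 := Finset.card_union_le (E.image (fun x => (x.1 + (x.2 : ZMod n), x.1)))
        (((Finset.univ : Finset (ZMod n)) ×ˢ Finset.Ioo h (n - h)).image (fun x => (x.1, x.1 + (x.2 : ZMod n))))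
  have c3 : (E.image (fun x => (x.1, x.1 + (x.2 : ZMod n)))).card ≤ E.card := Finset.card_image_le
  have c4 : (E.image (fun x => (x.1 + (x.2 : ZMod n), x.1))).card ≤ E.card := Finset.card_image_le
  have c5 : (((Finset.univ : Finset (ZMod n)) ×ˢ Finset.Ioo h (n - h)).image
      (fun x => (x.1, x.1 + (x.2 : ZMod n)))).card ≤ n * (n - h - h - 1) := by
    refine Finset.card_image_le.trans ?_
    rw [Finset.card_product, Nat.card_Ioo, Finset.card_univ, ZMod.card]
  omega

theorem classes {n : ℕ} [NeZero n] {c : ZMod n → ℕ → ℝ} {V : ZMod n → ℝ} {P : Finset ℝ}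
    {VG : Finset (ZMod n × ℕ)} {h : ℕ} {t η : ℝ}
    (hVG : VG ⊆ (Finset.univ : Finset (ZMod n)) ×ˢ Finset.Icc 1 h)
    (hP : ∀ x ∈ VG, c x.1 x.2 ∈ P)
    (hinj : ∀ i s s', (i, s) ∈ VG → (i, s') ∈ VG → c i s = c i s' → s = s')
    (hpair : ∀ x ∈ VG, ∀ y ∈ VG, c x.1 x.2 = c y.1 y.2 →
      (V x.1 = V y.1 ∧ V (x.1 + (x.2 : ZMod n)) = V (y.1 + (y.2 : ZMod n))) ∨
        (V x.1 = V (y.1 + (y.2 : ZMod n)) ∧ V (x.1 + (x.2 : ZMod n)) = V y.1))
    (hPc : (P.card : ℝ) ≤ (1 / 2 + t ^ 2) * n) (hh1 : 2 * h + 1 ≤ n) (hh2 : (n : ℝ) / 2 - t ^ 2 * n ≤ h)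
    (hbad : (((((Finset.univ : Finset (ZMod n)) ×ˢ Finset.Icc 1 h) \ VG).card : ℕ) : ℝ) ≤ 6 * t ^ 2 * n ^ 2)
    (ht0 : 0 < t) (hη0 : 0 < η) (hη1 : η ≤ 1) (htη : t ≤ η ^ 2 / 40) (hn : 1 ≤ t ^ 2 * n) :
    ∃ v, (((Finset.univ : Finset (ZMod n)).filter (fun i => V i ≠ v)).card : ℝ) ≤ η * n := by
  classical
  have hη2 : η ^ 2 ≤ η := by nlinarith
  have ht1 : t ≤ 1 / 40 := by nlinarith
  have htt : t ^ 2 ≤ t / 40 := by nlinarith
  have hn0 : (0 : ℝ) < n := by
    by_contra hcon
    have : (n : ℝ) = 0 := le_antisymm (not_lt.1 hcon) (Nat.cast_nonneg _)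
    rw [this] at hn
    linarith
  have htn : t * n ≤ t * n ^ 2 * 1 := by
    have : (1 : ℝ) ≤ n := by
      by_contra hcon
      have h1 : (n : ℝ) < 1 := not_le.1 hcon
      nlinarith
    nlinarith [mul_pos ht0 hn0]
  -- fibres
  let W : ℝ → Finset (ZMod n × ℕ) := fun D => VG.filter (fun x => c x.1 x.2 = D)
  have hWcard : ∀ D, (W D).card = ((W D).image Prod.fst).card := by
    intro D
    rw [Finset.card_image_of_injOn]
    intro x hx y hy hxy
    rw [Finset.mem_coe] at hx hy
    have hx' := mem_filter.1 hx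
    have hy' := mem_filter.1 hy
    obtain ⟨i, s⟩ := x
    obtain ⟨j, s'⟩ := y
    simp only at hxy hx' hy'
    subst hxy
    have := hinj i s s' hx'.1 hy'.1 (by rw [hx'.2, hy'.2])
    rw [this]
  have hcu : (Finset.univ : Finset (ZMod n)).card = n := by rw [Finset.card_univ, ZMod.card]
  have hWn : ∀ D, (W D).card ≤ n := by
    intro D
    rw [hWcard D]
    calc _ ≤ (Finset.univ : Finset (ZMod n)).card := Finset.card_le_card (Finset.subset_univ _)
      _ = n := hcu
  have hsumW : ∑ D ∈ P, (W D).card = VG.card :=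
    (Finset.card_eq_sum_card_fiberwise (f := fun x : ZMod n × ℕ => c x.1 x.2) fun x hx =>
      Finset.mem_coe.2 (hP x (Finset.mem_coe.1 hx))).symm
  have hprod : ((Finset.univ : Finset (ZMod n)) ×ˢ Finset.Icc 1 h).card = n * h := by
    rw [Finset.card_product, hcu, Nat.card_Icc, Nat.add_sub_cancel]
  have hVGc : (n : ℝ) * h - 6 * t ^ 2 * n ^ 2 ≤ VG.card := by
    have h1 := Finset.card_sdiff_add_card_eq_card hVG
    rw [hprod] at h1
    have h2 : (((((Finset.univ : Finset (ZMod n)) ×ˢ Finset.Icc 1 h) \ VG).card : ℕ) : ℝ) + VG.card = n * h := by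
      exact_mod_cast h1
    linarith
  have hVGc' : (n : ℝ) ^ 2 / 2 - 7 * t ^ 2 * n ^ 2 ≤ VG.card := by
    have : (n : ℝ) * (n / 2 - t ^ 2 * n) ≤ n * h := mul_le_mul_of_nonneg_left hh2 hn0.le
    nlinarith
  have hdef : ∑ D ∈ P, ((n : ℝ) - (W D).card) ≤ 8 * t ^ 2 * n ^ 2 := by
    rw [Finset.sum_sub_distrib, Finset.sum_const, nsmul_eq_mul]
    have h1 : ∑ D ∈ P, ((W D).card : ℝ) = VG.card := by exact_mod_cast hsumW
    rw [h1]
    have h2 : (P.card : ℝ) * n ≤ (1 / 2 + t ^ 2) * n * n := mul_le_mul_of_nonneg_right hPc hn0.le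
    nlinarith
  -- poor distances
  set PO := P.filter (fun D => ¬ (n : ℝ) - (W D).card ≤ t * n) with hPO
  have hPOc : (PO.card : ℝ) ≤ 8 * t * n := by
    have h1 : t * n * (PO.card : ℝ) ≤ t * n * (8 * t * n) := by
      calc t * n * (PO.card : ℝ) = ∑ D ∈ PO, t * n := by rw [Finset.sum_const, nsmul_eq_mul]; ring
        _ ≤ ∑ D ∈ PO, ((n : ℝ) - (W D).card) := by
            refine Finset.sum_le_sum fun D hD => ?_
            exact (not_le.1 (mem_filter.1 hD).2).le
        _ ≤ ∑ D ∈ P, ((n : ℝ) - (W D).card) := by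
            refine Finset.sum_le_sum_of_subset_of_nonneg (Finset.filter_subset _ _) fun D _ _ => ?_
            have : ((W D).card : ℝ) ≤ n := by exact_mod_cast hWn D
            linarith
        _ ≤ 8 * t ^ 2 * n ^ 2 := hdef
        _ = t * n * (8 * t * n) := by ring
    exact le_of_mul_le_mul_left h1 (mul_pos ht0 hn0)
  -- good pairs: in `VG` with a rich distance
  set NR := ((Finset.univ : Finset (ZMod n)) ×ˢ Finset.Icc 1 h).filter
    (fun x => ¬ (x ∈ VG ∧ c x.1 x.2 ∉ PO)) with hNR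
  have hNRc : (NR.card : ℝ) ≤ 6 * t ^ 2 * n ^ 2 + 8 * t * n ^ 2 := by
    have h1 : NR ⊆ (((Finset.univ : Finset (ZMod n)) ×ˢ Finset.Icc 1 h) \ VG) ∪ PO.biUnion W := by
      intro x hx
      rw [hNR, mem_filter] at hx
      rw [mem_union, mem_sdiff]
      by_cases h2 : x ∈ VG
      · right
        rw [Finset.mem_biUnion]
        have h3 : c x.1 x.2 ∈ PO := by
          by_contra h4
          exact hx.2 ⟨h2, h4⟩
        exact ⟨_, h3, mem_filter.2 ⟨h2, rfl⟩⟩
      · exact Or.inl ⟨hx.1, h2⟩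
    have h2 := (Finset.card_le_card h1).trans (Finset.card_union_le _ _)
    have h3 : (PO.biUnion W).card ≤ PO.card * n :=
      Finset.card_biUnion_le_card_mul _ _ _ fun D _ => hWn D
    have h4 : (NR.card : ℝ) ≤ ((((Finset.univ : Finset (ZMod n)) ×ˢ Finset.Icc 1 h) \ VG).card : ℕ) +
        (PO.card : ℝ) * n := by
      exact_mod_cast h2.trans (Nat.add_le_add_left h3 _)
    have h5 : (PO.card : ℝ) * n ≤ 8 * t * n * n := mul_le_mul_of_nonneg_right hPOc hn0.le
    nlinarith
  -- a good pair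
  obtain ⟨x0, hx0, hx0'⟩ : ∃ x0 ∈ VG, c x0.1 x0.2 ∉ PO := by
    by_contra hcon
    push Not at hcon
    have h1 : NR = (Finset.univ : Finset (ZMod n)) ×ˢ Finset.Icc 1 h := by
      rw [hNR, Finset.filter_eq_self]
      rintro x _ ⟨h2, h3⟩
      exact h3 (hcon x h2)
    rw [h1, hprod] at hNRc
    push_cast at hNRc
    have : (n : ℝ) * (n / 2 - t ^ 2 * n) ≤ n * h := mul_le_mul_of_nonneg_left hh2 hn0.le
    have h2 : 0 < (n : ℝ) ^ 2 := by positivity
    nlinarith
  -- every rich fibre misses at most `t n` vertices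
  have hrich : ∀ D ∈ P, D ∉ PO → (((Finset.univ : Finset (ZMod n)).filter
      (fun i => i ∉ (W D).image Prod.fst)).card : ℝ) ≤ t * n := by
    intro D hD hDPO
    have h1 : (n : ℝ) - (W D).card ≤ t * n := by
      by_contra h2
      exact hDPO (mem_filter.2 ⟨hD, h2⟩)
    have h2 : (Finset.univ : Finset (ZMod n)).filter (fun i => i ∉ (W D).image Prod.fst) =
        Finset.univ \ (W D).image Prod.fst := by
      ext i
      simp only [mem_filter, mem_sdiff, Finset.mem_univ, true_and]
    have h3 := Finset.card_sdiff_add_card_eq_card (Finset.subset_univ ((W D).image Prod.fst))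
    rw [hcu, ← hWcard D] at h3
    rw [h2]
    have h4 : (((Finset.univ : Finset (ZMod n)) \ (W D).image Prod.fst).card : ℝ) + (W D).card = n := by
      exact_mod_cast h3
    linarith
  set v1 := V x0.1 with hv1
  set v2 := V (x0.1 + (x0.2 : ZMod n)) with hv2
  -- all but `t n` vertices have the value `v1` or `v2`
  have htwo : (((Finset.univ : Finset (ZMod n)).filter (fun i => V i ≠ v1 ∧ V i ≠ v2)).card : ℝ) ≤ t * n := by
    refine le_trans ?_ (hrich _ (hP x0 hx0) hx0')
    refine Nat.cast_le.2 (Finset.card_le_card ?_)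
    intro i hi
    rw [mem_filter] at hi ⊢
    refine ⟨Finset.mem_univ _, fun h1 => ?_⟩
    obtain ⟨y, hy, rfl⟩ := Finset.mem_image.1 h1
    have hy' := mem_filter.1 hy
    rcases hpair y hy'.1 x0 hx0 hy'.2 with h2 | h2
    · exact hi.2.1 h2.1
    · exact hi.2.2 h2.1
  by_cases hv : v1 = v2
  · refine ⟨v1, ?_⟩
    have h1 : (Finset.univ : Finset (ZMod n)).filter (fun i => V i ≠ v1) ⊆
        (Finset.univ : Finset (ZMod n)).filter (fun i => V i ≠ v1 ∧ V i ≠ v2) := by
      intro i hi
      rw [mem_filter] at hi ⊢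
      exact ⟨hi.1, hi.2, by rw [← hv]; exact hi.2⟩
    have h2 : (((Finset.univ : Finset (ZMod n)).filter (fun i => V i ≠ v1)).card : ℝ) ≤ t * n :=
      le_trans (Nat.cast_le.2 (Finset.card_le_card h1)) htwo
    have : t * n ≤ η * n := mul_le_mul_of_nonneg_right (by nlinarith) hn0.le
    linarith
  · by_cases hA : (((Finset.univ : Finset (ZMod n)).filter (fun i => V i ≠ v1)).card : ℝ) ≤ η * n
    · exact ⟨v1, hA⟩
    by_cases hB : (((Finset.univ : Finset (ZMod n)).filter (fun i => V i ≠ v2)).card : ℝ) ≤ η * n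
    · exact ⟨v2, hB⟩
    exfalso
    -- both classes are large
    have hlarge : ∀ a b : ℝ, (((Finset.univ : Finset (ZMod n)).filter (fun i => V i ≠ a ∧ V i ≠ b)).card : ℝ) ≤ t * n →
        ¬ (((Finset.univ : Finset (ZMod n)).filter (fun i => V i ≠ b)).card : ℝ) ≤ η * n →
        (η - t) * n ≤ (((Finset.univ : Finset (ZMod n)).filter (fun i => V i = a)).card : ℝ) := by
      intro a b h1 h2
      have h3 : (Finset.univ : Finset (ZMod n)).filter (fun i => V i ≠ b) ⊆
          (Finset.univ : Finset (ZMod n)).filter (fun i => V i = a) ∪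
            (Finset.univ : Finset (ZMod n)).filter (fun i => V i ≠ a ∧ V i ≠ b) := by
        intro i hi
        rw [mem_filter] at hi
        rw [mem_union, mem_filter, mem_filter]
        by_cases h4 : V i = a
        · exact Or.inl ⟨hi.1, h4⟩
        · exact Or.inr ⟨hi.1, h4, hi.2⟩
      have h4 := (Finset.card_le_card h3).trans (Finset.card_union_le _ _)
      have h5 : (((Finset.univ : Finset (ZMod n)).filter (fun i => V i ≠ b)).card : ℝ) ≤
          (((Finset.univ : Finset (ZMod n)).filter (fun i => V i = a)).card : ℝ) +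
          (((Finset.univ : Finset (ZMod n)).filter (fun i => V i ≠ a ∧ V i ≠ b)).card : ℝ) := by
        exact_mod_cast h4
      push Not at h2
      linarith
    have hL1 := hlarge v1 v2 htwo hB
    have htwo' : (((Finset.univ : Finset (ZMod n)).filter (fun i => V i ≠ v2 ∧ V i ≠ v1)).card : ℝ) ≤ t * n := by
      refine le_trans (Nat.cast_le.2 (Finset.card_le_card ?_)) htwo
      intro i hi
      rw [mem_filter] at hi ⊢
      exact ⟨hi.1, hi.2.2, hi.2.1⟩
    have hL2 := hlarge v2 v1 htwo' hA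
    have hηt : t * n < (η - t) * n := by
      refine mul_lt_mul_of_pos_right ?_ hn0
      nlinarith
    -- every good pair joins the two classes
    have hsep : ∀ x ∈ VG, c x.1 x.2 ∉ PO → V x.1 ≠ V (x.1 + (x.2 : ZMod n)) := by
      intro x hx hxPO hVV
      have hmiss := hrich _ (hP x hx) hxPO
      have hfind : ∀ a : ℝ, (η - t) * n ≤ (((Finset.univ : Finset (ZMod n)).filter (fun i => V i = a)).card : ℝ) →
          ∃ y ∈ VG, c y.1 y.2 = c x.1 x.2 ∧ V y.1 = a := by
        intro a ha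
        by_contra hcon
        push Not at hcon
        have h1 : (Finset.univ : Finset (ZMod n)).filter (fun i => V i = a) ⊆
            (Finset.univ : Finset (ZMod n)).filter (fun i => i ∉ (W (c x.1 x.2)).image Prod.fst) := by
          intro i hi
          rw [mem_filter] at hi ⊢
          refine ⟨hi.1, fun h2 => ?_⟩
          obtain ⟨y, hy, rfl⟩ := Finset.mem_image.1 h2
          have hy' := mem_filter.1 hy
          exact hcon y hy'.1 hy'.2 hi.2
        have h2 : (((Finset.univ : Finset (ZMod n)).filter (fun i => V i = a)).card : ℝ) ≤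
            (((Finset.univ : Finset (ZMod n)).filter (fun i => i ∉ (W (c x.1 x.2)).image Prod.fst)).card : ℝ) :=
          Nat.cast_le.2 (Finset.card_le_card h1)
        linarith
      obtain ⟨y1, hy1, hy1c, hy1v⟩ := hfind v1 hL1
      obtain ⟨y2, hy2, hy2c, hy2v⟩ := hfind v2 hL2
      have k1 := hpair x hx y1 hy1 hy1c.symm
      have k2 := hpair x hx y2 hy2 hy2c.symm
      rw [← hVV] at k1 k2
      have l1 : V x.1 = v1 := by
        rcases k1 with k | k
        · rw [k.1, hy1v]
        · rw [k.2, hy1v]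
      have l2 : V x.1 = v2 := by
        rcases k2 with k | k
        · rw [k.1, hy2v]
        · rw [k.2, hy2v]
      exact hv (l1.symm.trans l2)
    -- pairs inside the first class
    set A := (Finset.univ : Finset (ZMod n)).filter (fun i => V i = v1) with hAd
    have hoff := card_offDiag_le A hh1
    have hE : ((Finset.univ : Finset (ZMod n)) ×ˢ Finset.Icc 1 h).filter
        (fun x : ZMod n × ℕ => x.1 ∈ A ∧ x.1 + (x.2 : ZMod n) ∈ A) ⊆ NR := by
      intro x hx
      rw [mem_filter] at hx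
      rw [hNR, mem_filter]
      refine ⟨hx.1, fun h1 => ?_⟩
      have h2 := hsep x h1.1 h1.2
      have h3 := (mem_filter.1 hx.2.1).2
      have h4 := (mem_filter.1 hx.2.2).2
      exact h2 (h3.trans h4.symm)
    have hEc := Finset.card_le_card hE
    rw [Finset.offDiag_card] at hoff
    have h1 : A.card * A.card ≤ A.card + 2 * NR.card + n * (n - h - h - 1) := by omega
    have hAn : A.card ≤ n := by
      calc A.card ≤ (Finset.univ : Finset (ZMod n)).card := Finset.card_le_card (Finset.subset_univ _)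
        _ = n := hcu
    have h2 : (A.card : ℝ) * A.card ≤ A.card + 2 * NR.card + n * ((n - h - h - 1 : ℕ) : ℝ) := by exact_mod_cast h1
    have h3 : ((n - h - h - 1 : ℕ) : ℝ) ≤ 2 * t ^ 2 * n := by
      have : ((n - h - h - 1 : ℕ) : ℝ) = n - 2 * h - 1 := by
        rw [Nat.sub_sub, Nat.sub_sub, Nat.cast_sub (by omega)]
        push_cast
        ring
      rw [this]
      linarith
    have h4 : (n : ℝ) * ((n - h - h - 1 : ℕ) : ℝ) ≤ n * (2 * t ^ 2 * n) := mul_le_mul_of_nonneg_left h3 hn0.le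
    have h5 : (A.card : ℝ) ≤ n := by exact_mod_cast hAn
    have h6 : (n : ℝ) ≤ t ^ 2 * n ^ 2 := by nlinarith
    have hηt0 : 0 ≤ (η - t) * n := by
      have := mul_pos ht0 hn0
      linarith
    have h7 : ((η - t) * n) * ((η - t) * n) ≤ (A.card : ℝ) * A.card := mul_le_mul hL1 hL1 hηt0 (Nat.cast_nonneg _)
    have h8 : (η - t) ^ 2 * (n : ℝ) ^ 2 ≤ (16 * t + 15 * t ^ 2) * n ^ 2 := by nlinarith
    have h9 : (η - t) ^ 2 ≤ 16 * t + 15 * t ^ 2 := le_of_mul_le_mul_right h8 (by positivity)
    have h10 : (39 / 40 * η) ^ 2 ≤ (η - t) ^ 2 := by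
      apply pow_le_pow_left₀ (by linarith)
      nlinarith
    nlinarith [mul_pos hη0 hη0]

end Pool.Agent.Lib.MP_0d8f69_coZ
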