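import Pool.Agent.Lib.MP_0d8f69_coZ.Seq

/-!
MP_0d8f69_co, almost unimodal polygons: popular distances.
-/

set_option autoImplicit false

namespace Pool.Agent.Lib.MP_0d8f69_coZ

open Finset

/-- a family of `n` sequences with values (at `1, …, n - 1`) in `Δ`, each value taken at most twice by each
sequence, with almost maximal sum of squares -/
structure Fam {ι : Type} [Fintype ι] (n : ℕ) (c : ι → ℕ → ℝ) (Δ : Finset ℝ) (δ : ℝ) : Prop where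
  card : Fintype.card ι = n
  pos : 2 ≤ n
  mem : ∀ i s, 1 ≤ s → s < n → c i s ∈ Δ
  two : ∀ i D, ks n (c i) D ≤ 2
  del0 : 0 < δ
  del1 : δ ≤ 1
  Q : (2 - δ ^ 2) * (n : ℝ) ^ 3 ≤ ∑ D ∈ Δ, ((∑ i, ks n (c i) D : ℕ) : ℝ) ^ 2

/-- the popular values -/
noncomputable def PP {ι : Type} [Fintype ι] (n : ℕ) (c : ι → ℕ → ℝ) (Δ : Finset ℝ) (δ : ℝ) : Finset ℝ :=
  Δ.filter (fun D => 2 * (n : ℝ) - ((∑ i, ks n (c i) D : ℕ) : ℝ) ≤ δ * n)

variable {ι : Type} [Fintype ι] {n : ℕ} {c : ι → ℕ → ℝ} {Δ : Finset ℝ} {δ : ℝ}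

theorem Fam.sum_ks (h : Fam n c Δ δ) (i : ι) : ∑ D ∈ Δ, ks n (c i) D = n - 1 := by
  unfold ks
  have h1 : (Finset.Icc 1 (n - 1)).card = ∑ D ∈ Δ, ((Finset.Icc 1 (n - 1)).filter (fun s => c i s = D)).card :=
    Finset.card_eq_sum_card_fiberwise (f := fun s => c i s) fun s hs => by
      rw [Finset.mem_coe, mem_Icc] at hs
      have := h.pos
      exact Finset.mem_coe.2 (h.mem i s hs.1 (by omega))
  rw [← h1, Nat.card_Icc]
  omega

theorem Fam.sum_R (h : Fam n c Δ δ) : ∑ D ∈ Δ, ∑ i, ks n (c i) D = n * (n - 1) := by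
  rw [Finset.sum_comm, Finset.sum_congr rfl fun i _ => h.sum_ks i, Finset.sum_const, smul_eq_mul,
    Finset.card_univ, h.card]

theorem Fam.R_le (h : Fam n c Δ δ) (D : ℝ) : ∑ i, ks n (c i) D ≤ 2 * n := by
  calc ∑ i, ks n (c i) D ≤ ∑ _i : ι, 2 := Finset.sum_le_sum fun i _ => h.two i D
    _ = 2 * n := by rw [Finset.sum_const, smul_eq_mul, Finset.card_univ, h.card, mul_comm]

theorem Fam.sum_Rr (h : Fam n c Δ δ) : ∑ D ∈ Δ, ((∑ i, ks n (c i) D : ℕ) : ℝ) = n * (n - 1) := by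
  have h1 : ((∑ D ∈ Δ, ∑ i, ks n (c i) D : ℕ) : ℝ) = ((n * (n - 1) : ℕ) : ℝ) := by rw [h.sum_R]
  have := h.pos
  rw [Nat.cast_sum, Nat.cast_mul, Nat.cast_sub (by omega), Nat.cast_one] at h1
  exact h1

/-- few pairs have an unpopular distance -/
theorem Fam.unpop (h : Fam n c Δ δ) :
    ∑ D ∈ Δ.filter (fun D => ¬ 2 * (n : ℝ) - ((∑ i, ks n (c i) D : ℕ) : ℝ) ≤ δ * n),
      ((∑ i, ks n (c i) D : ℕ) : ℝ) ≤ δ * n ^ 2 := by
  have hn : (2 : ℝ) ≤ n := by exact_mod_cast h.pos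
  have h1 : ∑ D ∈ Δ, ((∑ i, ks n (c i) D : ℕ) : ℝ) * (2 * n - ((∑ i, ks n (c i) D : ℕ) : ℝ)) ≤ δ ^ 2 * n ^ 3 := by
    have h2 : ∑ D ∈ Δ, ((∑ i, ks n (c i) D : ℕ) : ℝ) * (2 * n - ((∑ i, ks n (c i) D : ℕ) : ℝ)) =
        2 * n * ∑ D ∈ Δ, ((∑ i, ks n (c i) D : ℕ) : ℝ) - ∑ D ∈ Δ, ((∑ i, ks n (c i) D : ℕ) : ℝ) ^ 2 := by
      rw [Finset.mul_sum, ← Finset.sum_sub_distrib]
      exact Finset.sum_congr rfl fun D _ => by ring
    rw [h2, h.sum_Rr]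
    have := h.Q
    nlinarith
  have hnn : ∀ D ∈ Δ, 0 ≤ ((∑ i, ks n (c i) D : ℕ) : ℝ) * (2 * n - ((∑ i, ks n (c i) D : ℕ) : ℝ)) := by
    intro D _
    have h3 : ((∑ i, ks n (c i) D : ℕ) : ℝ) ≤ 2 * n := by exact_mod_cast h.R_le D
    exact mul_nonneg (Nat.cast_nonneg _) (by linarith)
  have h2 : δ * n * ∑ D ∈ Δ.filter (fun D => ¬ 2 * (n : ℝ) - ((∑ i, ks n (c i) D : ℕ) : ℝ) ≤ δ * n),
      ((∑ i, ks n (c i) D : ℕ) : ℝ) ≤ δ ^ 2 * n ^ 3 := by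
    rw [Finset.mul_sum]
    refine le_trans ?_ h1
    refine le_trans ?_ (Finset.sum_le_sum_of_subset_of_nonneg (Finset.filter_subset
      (fun D => ¬ 2 * (n : ℝ) - ((∑ i, ks n (c i) D : ℕ) : ℝ) ≤ δ * n) Δ) fun D hD _ => hnn D hD)
    refine Finset.sum_le_sum fun D hD => ?_
    rw [mem_filter, not_le] at hD
    rw [mul_comm]
    exact mul_le_mul_of_nonneg_left hD.2.le (Nat.cast_nonneg _)
  have h3 : 0 < δ * n := mul_pos h.del0 (by linarith)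
  have h4 : δ ^ 2 * n ^ 3 = δ * n * (δ * n ^ 2) := by ring
  rw [h4] at h2
  exact le_of_mul_le_mul_left h2 h3

theorem Fam.us_eq (h : Fam n c Δ δ) (i : ι) : us n (c i) (PP n c Δ δ) =
    ∑ D ∈ Δ.filter (fun D => ¬ 2 * (n : ℝ) - ((∑ i, ks n (c i) D : ℕ) : ℝ) ≤ δ * n), ks n (c i) D := by
  unfold us
  rw [Finset.card_eq_sum_card_fiberwise (f := fun s => c i s)
    (t := Δ.filter (fun D => ¬ 2 * (n : ℝ) - ((∑ i, ks n (c i) D : ℕ) : ℝ) ≤ δ * n))]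
  · refine Finset.sum_congr rfl fun D hD => ?_
    unfold ks
    congr 1
    ext s
    simp only [mem_filter]
    constructor
    · rintro ⟨⟨h1, _⟩, h3⟩
      exact ⟨h1, h3⟩
    · rintro ⟨h1, h3⟩
      refine ⟨⟨h1, ?_⟩, h3⟩
      rw [h3]
      unfold PP
      rw [mem_filter] at hD ⊢
      exact fun h4 => hD.2 h4.2
  · intro s hs
    rw [Finset.mem_coe, mem_filter, mem_Icc] at hs
    have := h.pos
    have hm := h.mem i s hs.1.1 (by omega)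
    refine Finset.mem_coe.2 (mem_filter.2 ⟨hm, fun h4 => hs.2 ?_⟩)
    unfold PP
    exact mem_filter.2 ⟨hm, h4⟩

theorem Fam.sum_us (h : Fam n c Δ δ) : ((∑ i, us n (c i) (PP n c Δ δ) : ℕ) : ℝ) ≤ δ * n ^ 2 := by
  rw [Finset.sum_congr rfl fun i _ => h.us_eq i, Finset.sum_comm, Nat.cast_sum]
  exact h.unpop

theorem Fam.card_PP_mul (h : Fam n c Δ δ) : ((PP n c Δ δ).card : ℝ) * (2 - δ) ≤ n := by
  have hn : (2 : ℝ) ≤ n := by exact_mod_cast h.pos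
  have h1 : ∑ D ∈ PP n c Δ δ, ((2 - δ) * n) ≤ ∑ D ∈ Δ, ((∑ i, ks n (c i) D : ℕ) : ℝ) := by
    refine le_trans ?_ (Finset.sum_le_sum_of_subset_of_nonneg (s := PP n c Δ δ) (Finset.filter_subset _ _)
      fun D _ _ => Nat.cast_nonneg _)
    refine Finset.sum_le_sum fun D hD => ?_
    unfold PP at hD
    rw [mem_filter] at hD
    linarith [hD.2]
  rw [h.sum_Rr, Finset.sum_const, nsmul_eq_mul] at h1
  have h2 : ((PP n c Δ δ).card : ℝ) * (2 - δ) * n ≤ n * n := by nlinarith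
  exact le_of_mul_le_mul_right h2 (by linarith)

theorem Fam.card_PP_le (h : Fam n c Δ δ) : ((PP n c Δ δ).card : ℝ) ≤ (1 / 2 + δ) * n := by
  have h1 := h.card_PP_mul
  have h2 := h.del0
  have h3 := h.del1
  have hn : (2 : ℝ) ≤ n := by exact_mod_cast h.pos
  have h6 : 0 ≤ (n : ℝ) * (δ * (3 / 2 - δ)) := mul_nonneg (by linarith) (mul_nonneg h2.le (by linarith))
  have h4 : (n : ℝ) ≤ (1 / 2 + δ) * n * (2 - δ) := by
    have h7 : (1 / 2 + δ) * n * (2 - δ) = n + (n : ℝ) * (δ * (3 / 2 - δ)) := by ring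
    linarith
  have h5 : ((PP n c Δ δ).card : ℝ) * (2 - δ) ≤ (1 / 2 + δ) * n * (2 - δ) := h1.trans h4
  exact le_of_mul_le_mul_right h5 (by linarith)

theorem Fam.sum_ms (h : Fam n c Δ δ) : ((∑ i, ms n (c i) (PP n c Δ δ) : ℕ) : ℝ) ≤ δ * n ^ 2 := by
  have hn : (2 : ℝ) ≤ n := by exact_mod_cast h.pos
  have h1 : ∀ i, ((ms n (c i) (PP n c Δ δ) : ℕ) : ℝ) ≤ ∑ D ∈ PP n c Δ δ, (2 - (ks n (c i) D : ℝ)) := by
    intro i
    unfold ms
    rw [Finset.card_filter, Nat.cast_sum]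
    refine Finset.sum_le_sum fun D _ => ?_
    have h2 := h.two i D
    have h3 : ks n (c i) D = 0 ∨ ks n (c i) D = 1 ∨ ks n (c i) D = 2 := by omega
    rcases h3 with h4 | h4 | h4 <;> rw [h4] <;> norm_num
  calc ((∑ i, ms n (c i) (PP n c Δ δ) : ℕ) : ℝ) = ∑ i, ((ms n (c i) (PP n c Δ δ) : ℕ) : ℝ) := by
        rw [Nat.cast_sum]
    _ ≤ ∑ i, ∑ D ∈ PP n c Δ δ, (2 - (ks n (c i) D : ℝ)) := Finset.sum_le_sum fun i _ => h1 i
    _ = ∑ D ∈ PP n c Δ δ, (2 * (n : ℝ) - ((∑ i, ks n (c i) D : ℕ) : ℝ)) := by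
        rw [Finset.sum_comm]
        refine Finset.sum_congr rfl fun D _ => ?_
        rw [Finset.sum_sub_distrib, Finset.sum_const, nsmul_eq_mul, Finset.card_univ, h.card, Nat.cast_sum]
        ring
    _ ≤ ∑ D ∈ PP n c Δ δ, δ * n := by
        refine Finset.sum_le_sum fun D hD => ?_
        unfold PP at hD
        rw [mem_filter] at hD
        exact hD.2
    _ = ((PP n c Δ δ).card : ℝ) * (δ * n) := by rw [Finset.sum_const, nsmul_eq_mul]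
    _ ≤ n * (δ * n) := by
        refine mul_le_mul_of_nonneg_right ?_ (mul_nonneg h.del0.le (by linarith))
        have h2 := h.card_PP_mul
        have h3 := h.del1
        have h4 : (0 : ℝ) ≤ (PP n c Δ δ).card := Nat.cast_nonneg _
        nlinarith
    _ = δ * n ^ 2 := by ring

theorem Fam.card_PP_ge (h : Fam n c Δ δ) : (n : ℝ) - 1 - δ * n ≤ 2 * (PP n c Δ δ).card := by
  have hn : (2 : ℝ) ≤ n := by exact_mod_cast h.pos
  have h1 := Finset.sum_filter_add_sum_filter_not Δ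
    (fun D => 2 * (n : ℝ) - ((∑ i, ks n (c i) D : ℕ) : ℝ) ≤ δ * n) (fun D => ((∑ i, ks n (c i) D : ℕ) : ℝ))
  rw [h.sum_Rr] at h1
  have h2 := h.unpop
  have h3 : ∑ D ∈ Δ.filter (fun D => 2 * (n : ℝ) - ((∑ i, ks n (c i) D : ℕ) : ℝ) ≤ δ * n),
      ((∑ i, ks n (c i) D : ℕ) : ℝ) ≤ (PP n c Δ δ).card * (2 * n) := by
    calc _ ≤ ∑ D ∈ PP n c Δ δ, (2 * (n : ℝ)) := Finset.sum_le_sum fun D _ => by exact_mod_cast h.R_le D
      _ = _ := by rw [Finset.sum_const, nsmul_eq_mul]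
  have h4 : (n : ℝ) * ((n : ℝ) - 1 - δ * n) ≤ n * (2 * (PP n c Δ δ).card) := by nlinarith
  exact le_of_mul_le_mul_left h4 (by linarith)

end Pool.Agent.Lib.MP_0d8f69_coZ
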