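import Pool.Agent.Lib.MP_0d8f69_coI.Reg

/-!
MP_0d8f69_co, almost unimodal polygons: one rotation maps almost every vertex to the next one.
-/

set_option autoImplicit false

namespace Pool.Agent.Lib.MP_0d8f69_coZ

open Finset Pool.Agent.Lib.MP_0d8f69_coI

/-- the vertices of a convex polygon in cyclic order, indexed by `ZMod n` -/
structure Zp (n : ℕ) (z : ZMod n → ℂ) : Prop where
  three : 3 ≤ n
  inj : Function.Injective z
  pos : ∀ (i : ZMod n) (a b : ℕ), 1 ≤ a → a < b → b < n → 0 < dt (z i) (z (i + (a : ZMod n))) (z (i + (b : ZMod n)))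

variable {n : ℕ} [NeZero n] {z : ZMod n → ℂ} {lam : ℝ}

/-- two triangles of the polygon and of the shifted polygon with the same sides -/
theorem Zp.tri (h : Zp n z) {x1 x2 y : ZMod n} (h12 : x1 ≠ x2) (hy1 : y ≠ x1) (hy2 : y ≠ x2)
    (d12 : dist (z x1) (z x2) = dist (z (x1 + 1)) (z (x2 + 1)))
    (d1 : dist (z x1) (z y) = dist (z (x1 + 1)) (z (y + 1)))
    (d2 : dist (z x2) (z y) = dist (z (x2 + 1)) (z (y + 1))) :
    (z (y + 1) - z (x1 + 1)) * (z x2 - z x1) = (z (x2 + 1) - z (x1 + 1)) * (z y - z x1) := by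
  have hn := h.three
  have ha : x1 + (((x2 - x1).val : ℕ) : ZMod n) = x2 := by rw [ZMod.natCast_zmod_val, add_sub_cancel]
  have hb : x1 + (((y - x1).val : ℕ) : ZMod n) = y := by rw [ZMod.natCast_zmod_val, add_sub_cancel]
  have ha0 : (x2 - x1).val ≠ 0 := by
    rw [Ne, ZMod.val_eq_zero, sub_eq_zero]
    exact fun e => h12 e.symm
  have hb0 : (y - x1).val ≠ 0 := by
    rw [Ne, ZMod.val_eq_zero, sub_eq_zero]
    exact hy1
  have hab : (x2 - x1).val ≠ (y - x1).val := by
    intro e
    have := ZMod.val_injective n e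
    exact hy2 (sub_left_injective this).symm
  have ha' : x1 + 1 + (((x2 - x1).val : ℕ) : ZMod n) = x2 + 1 := by rw [ZMod.natCast_zmod_val]; ring
  have hb' : x1 + 1 + (((y - x1).val : ℕ) : ZMod n) = y + 1 := by rw [ZMod.natCast_zmod_val]; ring
  have hlt1 := ZMod.val_lt (x2 - x1)
  have hlt2 := ZMod.val_lt (y - x1)
  rcases lt_or_gt_of_ne hab with hlt | hlt
  · have p1 := h.pos x1 (x2 - x1).val (y - x1).val (by omega) hlt hlt2
    have p2 := h.pos (x1 + 1) (x2 - x1).val (y - x1).val (by omega) hlt hlt2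
    rw [ha, hb] at p1
    rw [ha', hb'] at p2
    have := tri_unique d12 d1 d2 p1 p2
    linear_combination (-1 : ℂ) * this
  · have p1 := h.pos x1 (y - x1).val (x2 - x1).val (by omega) hlt hlt1
    have p2 := h.pos (x1 + 1) (y - x1).val (x2 - x1).val (by omega) hlt hlt1
    rw [ha, hb] at p1
    rw [ha', hb'] at p2
    rw [dist_comm, dist_comm (z (x2 + 1))] at d2
    have := tri_unique d1 d12 d2 p1 p2
    linear_combination this

/-- the number of bad partners -/
noncomputable def bd (z : ZMod n → ℂ) (x : ZMod n) : Finset (ZMod n) :=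
  (Finset.univ : Finset (ZMod n)).filter (fun y => dist (z x) (z y) ≠ dist (z (x + 1)) (z (y + 1)))

theorem card_bd_big (hl : 0 < lam)
    (hTB : ((((Finset.univ : Finset (ZMod n)) ×ˢ (Finset.univ : Finset (ZMod n))).filter
      (fun x : ZMod n × ZMod n => dist (z x.1) (z x.2) ≠ dist (z (x.1 + 1)) (z (x.2 + 1)))).card : ℝ) ≤
      lam ^ 2 * n ^ 2) :
    (((Finset.univ : Finset (ZMod n)).filter (fun x => ¬ ((bd z x).card : ℝ) ≤ lam * n)).card : ℝ) ≤ lam * n := by
  have hn0 : (0 : ℝ) < n := by exact_mod_cast Nat.pos_of_ne_zero (NeZero.ne n)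
  have h1 : (((Finset.univ : Finset (ZMod n)) ×ˢ (Finset.univ : Finset (ZMod n))).filter
      (fun x : ZMod n × ZMod n => dist (z x.1) (z x.2) ≠ dist (z (x.1 + 1)) (z (x.2 + 1)))).card =
      ∑ x : ZMod n, (bd z x).card := by
    unfold bd
    rw [Finset.card_filter, Finset.sum_product]
    refine Finset.sum_congr rfl fun x _ => ?_
    rw [Finset.card_filter]
  rw [h1] at hTB
  have h2 : lam * n * (((Finset.univ : Finset (ZMod n)).filter (fun x => ¬ ((bd z x).card : ℝ) ≤ lam * n)).card : ℝ)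
      ≤ lam * n * (lam * n) := by
    calc lam * n * (((Finset.univ : Finset (ZMod n)).filter (fun x => ¬ ((bd z x).card : ℝ) ≤ lam * n)).card : ℝ)
          = ∑ x ∈ (Finset.univ : Finset (ZMod n)).filter (fun x => ¬ ((bd z x).card : ℝ) ≤ lam * n), lam * n := by
          rw [Finset.sum_const, nsmul_eq_mul]; ring
      _ ≤ ∑ x ∈ (Finset.univ : Finset (ZMod n)).filter (fun x => ¬ ((bd z x).card : ℝ) ≤ lam * n),
            ((bd z x).card : ℝ) := by
          refine Finset.sum_le_sum fun x hx => ?_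
          exact (not_le.1 (mem_filter.1 hx).2).le
      _ ≤ ∑ x : ZMod n, ((bd z x).card : ℝ) :=
          Finset.sum_le_sum_of_subset_of_nonneg (Finset.filter_subset _ _) fun _ _ _ => Nat.cast_nonneg _
      _ = ((∑ x : ZMod n, (bd z x).card : ℕ) : ℝ) := by rw [Nat.cast_sum]
      _ ≤ lam ^ 2 * n ^ 2 := hTB
      _ = lam * n * (lam * n) := by ring
  exact le_of_mul_le_mul_left h2 (mul_pos hl hn0)

/-- one rigid motion maps almost every vertex to the next one -/
theorem Zp.motion (h : Zp n z) (hl : 0 < lam) (hl4 : lam ≤ 1 / 8)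
    (hTB : ((((Finset.univ : Finset (ZMod n)) ×ˢ (Finset.univ : Finset (ZMod n))).filter
      (fun x : ZMod n × ZMod n => dist (z x.1) (z x.2) ≠ dist (z (x.1 + 1)) (z (x.2 + 1)))).card : ℝ) ≤
      lam ^ 2 * n ^ 2) :
    ∃ α β : ℂ, ‖α‖ = 1 ∧
      (((Finset.univ : Finset (ZMod n)).filter (fun y => z (y + 1) ≠ α * z y + β)).card : ℝ) ≤ 2 * lam * n := by
  classical
  have hn3 : (3 : ℝ) ≤ n := by exact_mod_cast h.three
  have hbig := card_bd_big hl hTB
  set BG := (Finset.univ : Finset (ZMod n)).filter (fun x => ¬ ((bd z x).card : ℝ) ≤ lam * n) with hBG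
  have hcu : (Finset.univ : Finset (ZMod n)).card = n := by rw [Finset.card_univ, ZMod.card]
  -- first point
  obtain ⟨x1, hx1⟩ : ∃ x1 : ZMod n, x1 ∉ BG := by
    by_contra hcon
    push Not at hcon
    have h1 : (Finset.univ : Finset (ZMod n)) ⊆ BG := fun x _ => hcon x
    have h2 := Finset.card_le_card h1
    rw [hcu] at h2
    have h3 : (n : ℝ) ≤ BG.card := by exact_mod_cast h2
    nlinarith
  have hb1 : ((bd z x1).card : ℝ) ≤ lam * n := by
    by_contra hcon
    exact hx1 (by rw [hBG, mem_filter]; exact ⟨Finset.mem_univ _, hcon⟩)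
  -- second point
  obtain ⟨x2, hx2⟩ : ∃ x2 : ZMod n, x2 ∉ BG ∪ (bd z x1 ∪ {x1}) := by
    by_contra hcon
    push Not at hcon
    have h1 : (Finset.univ : Finset (ZMod n)) ⊆ BG ∪ (bd z x1 ∪ {x1}) := fun x _ => hcon x
    have h2 := (Finset.card_le_card h1).trans (Finset.card_union_le _ _)
    have h3 := Finset.card_union_le (bd z x1) {x1}
    rw [Finset.card_singleton] at h3
    rw [hcu] at h2
    have h4 : n ≤ BG.card + (bd z x1).card + 1 := by omega
    have h5 : (n : ℝ) ≤ BG.card + (bd z x1).card + 1 := by exact_mod_cast h4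
    nlinarith
  rw [mem_union, mem_union, mem_singleton, not_or, not_or] at hx2
  have hb2 : ((bd z x2).card : ℝ) ≤ lam * n := by
    by_contra hcon
    exact hx2.1 (by rw [hBG, mem_filter]; exact ⟨Finset.mem_univ _, hcon⟩)
  have h21 : x2 ≠ x1 := hx2.2.2
  have d12 : dist (z x1) (z x2) = dist (z (x1 + 1)) (z (x2 + 1)) := by
    by_contra hcon
    exact hx2.2.1 (by unfold bd; rw [mem_filter]; exact ⟨Finset.mem_univ _, hcon⟩)
  have hz21 : z x2 - z x1 ≠ 0 := sub_ne_zero.2 fun e => h21 (h.inj e)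
  set α : ℂ := (z (x2 + 1) - z (x1 + 1)) / (z x2 - z x1) with hα
  refine ⟨α, z (x1 + 1) - α * z x1, ?_, ?_⟩
  · rw [hα, norm_div, ← dist_eq_norm, ← dist_eq_norm, dist_comm (z (x2 + 1)), dist_comm (z x2), ← d12]
    exact div_self (dist_ne_zero.2 fun e => h21 (h.inj e).symm)
  · have hαm : α * (z x2 - z x1) = z (x2 + 1) - z (x1 + 1) := by
      rw [hα]; exact div_mul_cancel₀ _ hz21
    have hsub : (Finset.univ : Finset (ZMod n)).filter (fun y => z (y + 1) ≠ α * z y + (z (x1 + 1) - α * z x1)) ⊆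
        bd z x1 ∪ bd z x2 := by
      intro y hy
      rw [mem_filter] at hy
      by_contra hcon
      rw [mem_union, not_or] at hcon
      have d1 : dist (z x1) (z y) = dist (z (x1 + 1)) (z (y + 1)) := by
        by_contra hc
        exact hcon.1 (by unfold bd; rw [mem_filter]; exact ⟨Finset.mem_univ _, hc⟩)
      have d2 : dist (z x2) (z y) = dist (z (x2 + 1)) (z (y + 1)) := by
        by_contra hc
        exact hcon.2 (by unfold bd; rw [mem_filter]; exact ⟨Finset.mem_univ _, hc⟩)
      apply hy.2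
      by_cases hy1 : y = x1
      · rw [hy1]; ring
      · by_cases hy2 : y = x2
        · rw [hy2]
          linear_combination (-1 : ℂ) * hαm
        · have ht := h.tri h21.symm hy1 hy2 d12 d1 d2
          apply mul_right_cancel₀ hz21
          linear_combination ht - (z y - z x1) * hαm
    have h1 := (Finset.card_le_card hsub).trans (Finset.card_union_le _ _)
    have h2 : (((Finset.univ : Finset (ZMod n)).filter
        (fun y => z (y + 1) ≠ α * z y + (z (x1 + 1) - α * z x1))).card : ℝ) ≤ (bd z x1).card + (bd z x2).card := by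
      exact_mod_cast h1
    linarith

/-- the rigid motion is a rotation which is not a half-turn -/
theorem Zp.rotation (h : Zp n z) {α β : ℂ} (hl8 : lam < 1 / 8)
    (hm : (((Finset.univ : Finset (ZMod n)).filter (fun y => z (y + 1) ≠ α * z y + β)).card : ℝ) ≤ 2 * lam * n) :
    α ≠ 1 ∧ α ≠ -1 := by
  classical
  have hn3 : (3 : ℝ) ≤ n := by exact_mod_cast h.three
  have hcu : (Finset.univ : Finset (ZMod n)).card = n := by rw [Finset.card_univ, ZMod.card]
  set M := (Finset.univ : Finset (ZMod n)).filter (fun y => z (y + 1) ≠ α * z y + β) with hM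
  obtain ⟨y, hy⟩ : ∃ y : ZMod n, y ∉ M ∪ M.image (fun x => x - 1) := by
    by_contra hcon
    push Not at hcon
    have h1 : (Finset.univ : Finset (ZMod n)) ⊆ M ∪ M.image (fun x => x - 1) := fun x _ => hcon x
    have h2 := (Finset.card_le_card h1).trans (Finset.card_union_le _ _)
    have h3 : (M.image (fun x => x - 1)).card ≤ M.card := Finset.card_image_le
    rw [hcu] at h2
    have h4 : n ≤ M.card + M.card := by omega
    have h5 : (n : ℝ) ≤ M.card + M.card := by exact_mod_cast h4
    nlinarith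
  rw [mem_union, not_or] at hy
  have e1 : z (y + 1) = α * z y + β := by
    by_contra hc
    exact hy.1 (by rw [hM, mem_filter]; exact ⟨Finset.mem_univ _, hc⟩)
  have e2 : z (y + 1 + 1) = α * z (y + 1) + β := by
    by_contra hc
    exact hy.2 (Finset.mem_image.2 ⟨y + 1, by rw [hM, mem_filter]; exact ⟨Finset.mem_univ _, hc⟩,
      by rw [add_sub_cancel_right]⟩)
  have hp := h.pos y 1 2 le_rfl (by norm_num) (by have := h.three; omega)
  have e3 : y + ((2 : ℕ) : ZMod n) = y + 1 + 1 := by push_cast; ring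
  rw [Nat.cast_one, e3] at hp
  constructor
  · intro hα
    rw [hα, one_mul] at e1 e2
    rw [e2, e1] at hp
    unfold dt at hp
    simp only [Complex.add_re, Complex.add_im] at hp
    linarith
  · intro hα
    rw [hα] at e1 e2
    have e4 : z (y + 1 + 1) = z y := by rw [e2, e1]; ring
    rw [e4, dt_self''] at hp
    exact lt_irrefl _ hp

end Pool.Agent.Lib.MP_0d8f69_coZ
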