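import Pool.Agent.Lib.MP_0d8f69_coZ.Shift3
import Pool.Agent.Lib.MP_0d8f69_coZ.Rig
import Pool.Agent.Lib.MP_0d8f69_coZ.Alg
import Pool.Agent.Lib.MP_0d8f69_coZ.Cls

/-!
MP_0d8f69_co, almost unimodal polygons: an almost extremal unimodal polygon is almost inscribed.
-/

set_option autoImplicit false

namespace Pool.Agent.Lib.MP_0d8f69_coZ

open Finset

variable {n : ℕ} [NeZero n] {z : ZMod n → ℂ} {Δ : Finset ℝ} {t η : ℝ}

theorem inverse (h : Zp n z) (hF : Fam n (cz z) Δ ((t ^ 4 / 10) ^ 2)) (hU : ∀ i, ∃ a, Uni n (cz z i) a)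
    (ht0 : 0 < t) (hη0 : 0 < η) (hη1 : η ≤ 1) (htη : t ≤ η ^ 2 / 40) (hn : 3 ≤ t ^ 4 / 10 * n) :
    ∃ (O : ℂ) (r : ℝ), (((Finset.univ : Finset (ZMod n)).filter (fun i => dist (z i) O ≠ r)).card : ℝ) ≤ η * n := by
  classical
  have hη2 : η ^ 2 ≤ η := by nlinarith
  have ht1 : t ≤ 1 / 40 := by nlinarith
  have ht2 : 0 < t ^ 2 := by positivity
  have ht2' : t ^ 2 ≤ 1 / 1600 := by nlinarith
  set κ : ℝ := t ^ 4 / 10 with hκ
  have hκ0 : 0 < κ := by positivity
  have hκt : κ ≤ t ^ 2 / 16000 := by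
    rw [hκ]
    have : t ^ 4 = t ^ 2 * t ^ 2 := by ring
    rw [this]
    nlinarith
  have hκ1 : κ ≤ 1 / 6 := by linarith
  have hn0 : (0 : ℝ) < n := by
    by_contra hcon
    have : (n : ℝ) = 0 := le_antisymm (not_lt.1 hcon) (Nat.cast_nonneg _)
    rw [this] at hn
    linarith
  have hTB := card_TB hF hU hκ0 hκ1 hn
  have hTB' : ((((Finset.univ : Finset (ZMod n)) ×ˢ (Finset.univ : Finset (ZMod n))).filter
      (fun x : ZMod n × ZMod n => dist (z x.1) (z x.2) ≠ dist (z (x.1 + 1)) (z (x.2 + 1)))).card : ℝ) ≤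
      (t ^ 2) ^ 2 * n ^ 2 := by
    refine hTB.trans (le_of_eq ?_)
    rw [hκ]; ring
  obtain ⟨α, β, hα, hM⟩ := h.motion ht2 (by linarith) hTB'
  obtain ⟨hα1, hα2⟩ := h.rotation (by linarith) hM
  set M := (Finset.univ : Finset (ZMod n)).filter (fun y => z (y + 1) ≠ α * z y + β) with hMd
  have h1α : 1 - α ≠ 0 := sub_ne_zero.2 fun e => hα1 e.symm
  set O : ℂ := β / (1 - α) with hO
  have hOβ : O * (1 - α) = β := by rw [hO]; exact div_mul_cancel₀ _ h1α
  have hu : ∀ y : ZMod n, y ∉ M → z (y + 1) - O = α * (z y - O) := by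
    intro y hy
    have e1 : z (y + 1) = α * z y + β := by
      by_contra hc
      exact hy (by rw [hMd, mem_filter]; exact ⟨Finset.mem_univ _, hc⟩)
    rw [e1]
    linear_combination (-1 : ℂ) * hOβ
  -- the range of separations
  have hx0 : 0 ≤ (n : ℝ) / 2 - 2 * κ * n - 2 := by nlinarith
  set m : ℕ := ⌊(n : ℝ) / 2 - 2 * κ * n - 2⌋₊ with hm
  have hm1 : (m : ℝ) ≤ n / 2 - 2 * κ * n - 2 := Nat.floor_le hx0
  have hm2 : (n : ℝ) / 2 - 2 * κ * n - 2 < m + 1 := Nat.lt_floor_add_one _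
  have hmn : (m : ℝ) ≤ n / 2 := by nlinarith
  set P := PP n (cz z) Δ (κ ^ 2) with hP
  have hVB := card_VB hF hU hκ0 hκ1 hn (h := m) (by linarith)
  rw [← hP] at hVB
  set VG := ((Finset.univ : Finset (ZMod n)) ×ˢ Finset.Icc 1 m).filter
    (fun x : ZMod n × ℕ => (2 ≤ x.2 ∧ Nx P (cz z x.1 (x.2 - 1)) (cz z x.1 x.2) ∧
        Nx P (cz z x.1 x.2) (cz z x.1 (x.2 + 1))) ∧ (x.1 + (x.2 : ZMod n) ∉ M ∧ x.1 + (x.2 : ZMod n) - 1 ∉ M))
    with hVGd
  have hbad : (((((Finset.univ : Finset (ZMod n)) ×ˢ Finset.Icc 1 m) \ VG).card : ℕ) : ℝ) ≤ 6 * t ^ 2 * n ^ 2 := by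
    have hsub : ((Finset.univ : Finset (ZMod n)) ×ˢ Finset.Icc 1 m) \ VG ⊆
        ((Finset.univ : Finset (ZMod n)) ×ˢ Finset.Icc 1 m).filter
          (fun x : ZMod n × ℕ => ¬ (2 ≤ x.2 ∧ Nx P (cz z x.1 (x.2 - 1)) (cz z x.1 x.2) ∧
            Nx P (cz z x.1 x.2) (cz z x.1 (x.2 + 1)))) ∪
        ((M ×ˢ Finset.Icc 1 m).image (fun x => (x.1 - (x.2 : ZMod n), x.2)) ∪
          (M ×ˢ Finset.Icc 1 m).image (fun x => (x.1 + 1 - (x.2 : ZMod n), x.2))) := by
      rintro ⟨i, s⟩ hx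
      rw [mem_sdiff, hVGd, mem_filter] at hx
      rw [mem_union, mem_union, mem_filter]
      have hs := (mem_product.1 hx.1).2
      simp only at hs
      by_cases c1 : (2 ≤ s ∧ Nx P (cz z i (s - 1)) (cz z i s) ∧ Nx P (cz z i s) (cz z i (s + 1)))
      · right
        by_cases c2 : i + (s : ZMod n) ∈ M
        · left
          exact Finset.mem_image.2 ⟨(i + (s : ZMod n), s), mem_product.2 ⟨c2, hs⟩,
            by simp only [add_sub_cancel_right]⟩
        · right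
          have c3 : i + (s : ZMod n) - 1 ∈ M := by
            by_contra c4
            exact hx.2 ⟨hx.1, c1, c2, c4⟩
          exact Finset.mem_image.2 ⟨(i + (s : ZMod n) - 1, s), mem_product.2 ⟨c3, hs⟩,
            by simp only [sub_add_cancel, add_sub_cancel_right]⟩
      · exact Or.inl ⟨hx.1, c1⟩
    have c0 := (Finset.card_le_card hsub).trans (Finset.card_union_le _ _)
    have c1 := Finset.card_union_le ((M ×ˢ Finset.Icc 1 m).image (fun x => (x.1 - (x.2 : ZMod n), x.2)))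
      ((M ×ˢ Finset.Icc 1 m).image (fun x => (x.1 + 1 - (x.2 : ZMod n), x.2)))
    have c2 : (M ×ˢ Finset.Icc 1 m).card = M.card * m := by
      rw [Finset.card_product, Nat.card_Icc, Nat.add_sub_cancel]
    have c3 : ((M ×ˢ Finset.Icc 1 m).image (fun x => (x.1 - (x.2 : ZMod n), x.2))).card ≤ M.card * m :=
      Finset.card_image_le.trans c2.le
    have c4 : ((M ×ˢ Finset.Icc 1 m).image (fun x => (x.1 + 1 - (x.2 : ZMod n), x.2))).card ≤ M.card * m :=
      Finset.card_image_le.trans c2.le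
    have c5 : (((Finset.univ : Finset (ZMod n)) ×ˢ Finset.Icc 1 m) \ VG).card ≤
        (((Finset.univ : Finset (ZMod n)) ×ˢ Finset.Icc 1 m).filter
          (fun x : ZMod n × ℕ => ¬ (2 ≤ x.2 ∧ Nx P (cz z x.1 (x.2 - 1)) (cz z x.1 x.2) ∧
            Nx P (cz z x.1 x.2) (cz z x.1 (x.2 + 1))))).card + 2 * (M.card * m) := by omega
    have c6 : (((((Finset.univ : Finset (ZMod n)) ×ˢ Finset.Icc 1 m) \ VG).card : ℕ) : ℝ) ≤
        ((((Finset.univ : Finset (ZMod n)) ×ˢ Finset.Icc 1 m).filter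
          (fun x : ZMod n × ℕ => ¬ (2 ≤ x.2 ∧ Nx P (cz z x.1 (x.2 - 1)) (cz z x.1 x.2) ∧
            Nx P (cz z x.1 x.2) (cz z x.1 (x.2 + 1))))).card : ℝ) + 2 * (M.card * m) := by exact_mod_cast c5
    have c7 : (M.card : ℝ) * m ≤ 2 * t ^ 2 * n * (n / 2) :=
      mul_le_mul hM hmn (Nat.cast_nonneg _) (by positivity)
    have c8 : 2 * κ * (n : ℝ) ^ 2 ≤ t ^ 2 * n ^ 2 := mul_le_mul_of_nonneg_right (by linarith) (by positivity)
    nlinarith
  have hVG : VG ⊆ (Finset.univ : Finset (ZMod n)) ×ˢ Finset.Icc 1 m := Finset.filter_subset _ _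
  have hmlt : m + 1 < n := by
    have : ((m + 1 : ℕ) : ℝ) < n := by push_cast; nlinarith
    exact_mod_cast this
  have hinj : ∀ i s s', (i, s) ∈ VG → (i, s') ∈ VG → cz z i s = cz z i s' → s = s' := by
    intro i s s' h1 h2 h3
    obtain ⟨a, ha⟩ := hU i
    have key : ∀ s, (i, s) ∈ VG → 1 ≤ s ∧ s ≤ a := by
      intro s hs
      rw [hVGd, mem_filter, mem_product, mem_Icc] at hs
      obtain ⟨⟨_, hs1, hs2⟩, ⟨hs3, _, hs4⟩, _⟩ := hs
      simp only at hs1 hs2 hs3 hs4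
      refine ⟨hs1, ?_⟩
      by_contra hcon
      have := ha.dec s (s + 1) (by omega) (by omega) (by omega)
      exact absurd hs4.2.2.1 (not_lt.2 this.le)
    have k1 := key s h1
    have k2 := key s' h2
    by_contra hne
    rcases lt_or_gt_of_ne hne with hlt | hlt
    · have := ha.inc s s' k1.1 hlt k2.2
      rw [h3] at this
      exact lt_irrefl _ this
    · have := ha.inc s' s k2.1 hlt k1.2
      rw [h3] at this
      exact lt_irrefl _ this
  have hpair : ∀ x ∈ VG, ∀ y ∈ VG, cz z x.1 x.2 = cz z y.1 y.2 →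
      (Complex.normSq (z x.1 - O) = Complex.normSq (z y.1 - O) ∧
        Complex.normSq (z (x.1 + (x.2 : ZMod n)) - O) = Complex.normSq (z (y.1 + (y.2 : ZMod n)) - O)) ∨
      (Complex.normSq (z x.1 - O) = Complex.normSq (z (y.1 + (y.2 : ZMod n)) - O) ∧
        Complex.normSq (z (x.1 + (x.2 : ZMod n)) - O) = Complex.normSq (z y.1 - O)) := by
    rintro ⟨i, s⟩ hx ⟨j, s'⟩ hy hD
    rw [hVGd, mem_filter, mem_product, mem_Icc] at hx hy
    obtain ⟨⟨_, hs1, hs2⟩, ⟨hs3, hs4, hs5⟩, hs6, hs7⟩ := hx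
    obtain ⟨⟨_, ht1', ht2''⟩, ⟨ht3, ht4, ht5⟩, ht6, ht7⟩ := hy
    simp only at hs1 hs2 hs3 hs4 hs5 hs6 hs7 ht1' ht2'' ht3 ht4 ht5 ht6 ht7 hD ⊢
    have hup : cz z i (s + 1) = cz z j (s' + 1) := by
      rw [hD] at hs5
      exact hs5.unique_right ht5
    have hdn : cz z i (s - 1) = cz z j (s' - 1) := by
      rw [hD] at hs4
      exact hs4.unique_left ht4
    have e1 : z (i + (s : ZMod n) + 1) - O = α * (z (i + (s : ZMod n)) - O) := hu _ hs6
    have e2 : z (i + (s : ZMod n)) - O = α * (z (i + (s : ZMod n) - 1) - O) := by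
      have := hu _ hs7
      rwa [sub_add_cancel] at this
    have f1 : z (j + (s' : ZMod n) + 1) - O = α * (z (j + (s' : ZMod n)) - O) := hu _ ht6
    have f2 : z (j + (s' : ZMod n)) - O = α * (z (j + (s' : ZMod n) - 1) - O) := by
      have := hu _ ht7
      rwa [sub_add_cancel] at this
    have dsub : ∀ a b : ℂ, dist (a - O) (b - O) = dist a b := fun a b => dist_sub_right a b O
    have g0 : dist (z i - O) (z (i + (s : ZMod n)) - O) = dist (z j - O) (z (j + (s' : ZMod n)) - O) := by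
      rw [dsub, dsub]; exact hD
    have g1 : dist (z i - O) (z (i + (s : ZMod n) + 1) - O) = dist (z j - O) (z (j + (s' : ZMod n) + 1) - O) := by
      rw [dsub, dsub]
      unfold cz at hup
      have e3 : i + ((s + 1 : ℕ) : ZMod n) = i + (s : ZMod n) + 1 := by push_cast; ring
      have e4 : j + ((s' + 1 : ℕ) : ZMod n) = j + (s' : ZMod n) + 1 := by push_cast; ring
      rw [e3, e4] at hup
      exact hup
    have g2 : dist (z i - O) (z (i + (s : ZMod n) - 1) - O) = dist (z j - O) (z (j + (s' : ZMod n) - 1) - O) := by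
      rw [dsub, dsub]
      unfold cz at hdn
      have e3 : i + ((s - 1 : ℕ) : ZMod n) = i + (s : ZMod n) - 1 := by
        rw [Nat.cast_sub (by omega), Nat.cast_one]; ring
      have e4 : j + ((s' - 1 : ℕ) : ZMod n) = j + (s' : ZMod n) - 1 := by
        rw [Nat.cast_sub (by omega), Nat.cast_one]; ring
      rw [e3, e4] at hdn
      exact hdn
    obtain ⟨r1, r2⟩ := radii hα hα1 hα2 e1 e2 f1 f2 g0 g1 g2
    exact pair_eq r1 r2
  have hκn : κ * n ≤ t ^ 2 * n / 16000 := by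
    have := mul_le_mul_of_nonneg_right hκt hn0.le
    linarith
  have hPc : (P.card : ℝ) ≤ (1 / 2 + t ^ 2) * n := by
    refine hF.card_PP_le.trans (mul_le_mul_of_nonneg_right ?_ hn0.le)
    have : κ ^ 2 ≤ t ^ 2 := by nlinarith
    linarith
  have hh1 : 2 * m + 1 ≤ n := by
    have : ((2 * m + 1 : ℕ) : ℝ) ≤ n := by push_cast; nlinarith
    exact_mod_cast this
  obtain ⟨v, hv⟩ := classes (c := cz z) (V := fun i => Complex.normSq (z i - O)) (P := P) (VG := VG) (h := m)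
    (t := t) (η := η) hVG
    (fun x hx => by
      rw [hVGd, mem_filter] at hx
      exact hx.2.1.2.2.1)
    hinj hpair hPc hh1 (by linarith) hbad ht0 hη0 hη1 htη (by linarith)
  refine ⟨O, √v, le_trans (Nat.cast_le.2 (Finset.card_le_card ?_)) hv⟩
  intro i hi
  rw [mem_filter] at hi ⊢
  refine ⟨hi.1, fun hV => hi.2 ?_⟩
  rw [← hV, Complex.dist_eq, Complex.norm_def]

end Pool.Agent.Lib.MP_0d8f69_coZ
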