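import Pool.Agent.Lib.MP_0d8f69_coI.Asym
import Pool.Agent.Lib.MP_0d8f69_coZ.Inv

/-!
MP_0d8f69_co, almost unimodal polygons: an almost extremal unimodal polygon is almost inscribed (finite sets).
-/

set_option autoImplicit false

namespace Pool.Agent.Lib.MP_0d8f69_coZ

open Finset Pool.Agent.Lib.MP_0d8f69_co Pool.Agent.Lib.MP_0d8f69_coI

/-- unimodal sets in convex position: from every point the distances to the other points, in cyclic order, first
increase and then decrease -/
def Unm (T : Finset ℂ) : Prop :=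
  ∀ p ∈ T, ∀ x ∈ T, ∀ y ∈ T, ∀ u ∈ T, p ≠ x → p ≠ y → p ≠ u → x ≠ y → x ≠ u → y ≠ u →
    (segment ℝ p y ∩ segment ℝ x u).Nonempty → min (dist p x) (dist p u) < dist p y

theorem Unm.subset {T T' : Finset ℂ} (h : Unm T) (hs : T' ⊆ T) : Unm T' :=
  fun p hp x hx y hy u hu => h p (hs hp) x (hs hx) y (hs hy) u (hs hu)

/-- the diagonals of a convex quadrilateral cross -/
theorem cross_point {a b c d : ℂ} (h1 : 0 < dt a b c) (h2 : 0 < dt a b d) (h3 : 0 < dt a c d) (h4 : 0 < dt b c d) :
    (segment ℝ a c ∩ segment ℝ b d).Nonempty := by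
  set α := dt a b d with hα
  set β := dt a b c with hβ
  set γ := dt b c d with hγ
  set δ := dt a c d with hδ
  have hQ : α + γ = β + δ := dt_sum a b c d
  have hQ0 : 0 < α + γ := by linarith
  refine ⟨a + ((α / (α + γ) : ℝ) : ℂ) * (c - a), ?_, ?_⟩
  · refine ⟨1 - α / (α + γ), α / (α + γ), ?_, by positivity, by ring, ?_⟩
    · rw [sub_nonneg, div_le_one hQ0]; linarith
    · simp only [Complex.real_smul]
      push_cast
      ring
  · refine ⟨1 - β / (α + γ), β / (α + γ), ?_, by positivity, by ring, ?_⟩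
    · rw [sub_nonneg, div_le_one hQ0]; linarith
    · apply Complex.ext
      · simp only [Complex.add_re, Complex.re_ofReal_mul, Complex.sub_re, Complex.real_smul]
        field_simp
        rw [hα, hβ, hγ]
        unfold dt
        ring
      · simp only [Complex.add_im, Complex.im_ofReal_mul, Complex.sub_im, Complex.real_smul]
        field_simp
        rw [hα, hβ, hγ]
        unfold dt
        ring

/-- the vertices indexed by `ZMod n` -/
def zw (n : ℕ) (w : ℤ → ℂ) (i : ZMod n) : ℂ := w (i.val : ℤ)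

variable {n : ℕ} {S : Finset ℂ} {w : ℤ → ℂ}

theorem zw_add [NeZero n] (h : Pol n S w) (i : ZMod n) (s : ℕ) :
    zw n w (i + (s : ZMod n)) = w ((i.val : ℤ) + s) := by
  unfold zw
  have h1 : (i + (s : ZMod n)).val = (i.val + s) % n := by
    rw [ZMod.val_add, ZMod.val_natCast, Nat.add_mod_mod]
  rw [h1]
  have h2 := h.per_mul (((i.val + s) % n : ℕ) : ℤ) (((i.val + s) / n : ℕ) : ℤ)
  rw [← h2]
  congr 1
  have h3 := Nat.mod_add_div (i.val + s) n
  have h4 : (((i.val + s) % n : ℕ) : ℤ) + n * (((i.val + s) / n : ℕ) : ℤ) = ((i.val + s : ℕ) : ℤ) := by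
    exact_mod_cast h3
  rw [h4]
  push_cast
  ring

theorem zp_of_pol [NeZero n] (h : Pol n S w) (h3 : 3 ≤ n) : Zp n (zw n w) := by
  refine ⟨h3, ?_, ?_⟩
  · intro i j hij
    unfold zw at hij
    by_contra hne
    have hv : i.val ≠ j.val := fun e => hne (ZMod.val_injective n e)
    have hi := ZMod.val_lt i
    have hj := ZMod.val_lt j
    rcases lt_or_gt_of_ne hv with hlt | hlt
    · exact h.ne h3 (i := (i.val : ℤ)) (j := (j.val : ℤ)) (by omega) (by omega) hij
    · exact h.ne h3 (i := (j.val : ℤ)) (j := (i.val : ℤ)) (by omega) (by omega) hij.symm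
  · intro i a b ha hab hb
    rw [zw_add h, zw_add h]
    unfold zw
    exact h.pos _ _ _ (by omega) (by omega) (by omega)

theorem zw_image [NeZero n] (h : Pol n S w) : (Finset.univ : Finset (ZMod n)).image (zw n w) = S := by
  ext x
  rw [Finset.mem_image]
  constructor
  · rintro ⟨i, _, rfl⟩
    exact h.mem _
  · intro hx
    obtain ⟨j, hj0, hjn, rfl⟩ := h.sur x hx
    refine ⟨((j.toNat : ℕ) : ZMod n), Finset.mem_univ _, ?_⟩
    unfold zw
    rw [ZMod.val_natCast, Nat.mod_eq_of_lt (by omega)]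
    congr 1
    omega

theorem zw_uni [NeZero n] (h : Pol n S w) (h3 : 3 ≤ n) (hU : Unm S) (i : ZMod n) : ∃ a, Uni n (cz (zw n w) i) a := by
  have hz := zp_of_pol h h3
  obtain ⟨a, _, ha⟩ := exists_uni (n := n) (by omega) (c := cz (zw n w) i) (by
    intro a b c ha hab hbc hc
    unfold cz
    have hmem : ∀ j : ZMod n, zw n w j ∈ S := fun j => h.mem _
    have hinj : ∀ s : ℕ, 1 ≤ s → s < n → zw n w i ≠ zw n w (i + (s : ZMod n)) := by
      intro s hs1 hsn e
      have h1 : (s : ZMod n) = 0 := by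
        have := hz.inj e
        exact (left_eq_add.1 this)
      rw [ZMod.natCast_eq_zero_iff] at h1
      exact absurd (Nat.le_of_dvd (by omega) h1) (by omega)
    have hinj2 : ∀ s t : ℕ, s < t → t < n → zw n w (i + (s : ZMod n)) ≠ zw n w (i + (t : ZMod n)) := by
      intro s t hst ht e
      have h1 := add_left_cancel (hz.inj e)
      have h2 := congrArg ZMod.val h1
      rw [ZMod.val_natCast, ZMod.val_natCast, Nat.mod_eq_of_lt (by omega), Nat.mod_eq_of_lt ht] at h2
      omega
    refine hU _ (hmem i) _ (hmem _) _ (hmem _) _ (hmem _) (hinj a ha (by omega)) (hinj b (by omega) (by omega))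
      (hinj c (by omega) hc) (hinj2 a b hab (by omega)) (hinj2 a c (by omega) hc) (hinj2 b c hbc hc) ?_
    refine cross_point ?_ ?_ ?_ ?_
    · exact hz.pos i a b ha hab (by omega)
    · exact hz.pos i a c ha (by omega) hc
    · exact hz.pos i b c (by omega) hbc hc
    · have := hz.pos (i + (a : ZMod n)) (b - a) (c - a) (by omega) (by omega) (by omega)
      have e1 : i + (a : ZMod n) + ((b - a : ℕ) : ZMod n) = i + (b : ZMod n) := by
        rw [add_assoc, ← Nat.cast_add, Nat.add_sub_cancel' (by omega)]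
      have e2 : i + (a : ZMod n) + ((c - a : ℕ) : ZMod n) = i + (c : ZMod n) := by
        rw [add_assoc, ← Nat.cast_add, Nat.add_sub_cancel' (by omega)]
      rw [e1, e2] at this
      exact this)
  exact ⟨a, ha⟩

theorem kd_zw [NeZero n] (h : Pol n S w) (h3 : 3 ≤ n) (D : ℝ) (i : ZMod n) :
    kd S D (zw n w i) = ks n (cz (zw n w) i) D := by
  have hz := zp_of_pol h h3
  symm
  unfold kd ks
  refine Finset.card_bij (fun s _ => zw n w (i + (s : ZMod n))) ?_ ?_ ?_
  · intro s hs
    rw [mem_filter, mem_Icc] at hs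
    rw [mem_filter]
    refine ⟨h.mem _, ?_, hs.2⟩
    intro e
    have h1 : (s : ZMod n) = 0 := add_eq_left.1 (hz.inj e)
    rw [ZMod.natCast_eq_zero_iff] at h1
    exact absurd (Nat.le_of_dvd (by omega) h1) (by omega)
  · intro s hs t ht e
    rw [mem_filter, mem_Icc] at hs ht
    have h1 := add_left_cancel (hz.inj e)
    have h2 := congrArg ZMod.val h1
    rw [ZMod.val_natCast, ZMod.val_natCast, Nat.mod_eq_of_lt (by omega), Nat.mod_eq_of_lt (by omega)] at h2
    exact h2
  · intro q hq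
    rw [mem_filter] at hq
    have h1 : q ∈ (Finset.univ : Finset (ZMod n)).image (zw n w) := by rw [zw_image h]; exact hq.1
    obtain ⟨j, _, rfl⟩ := Finset.mem_image.1 h1
    have hj : i + (((j - i).val : ℕ) : ZMod n) = j := by rw [ZMod.natCast_zmod_val, add_sub_cancel]
    have hj0 : (j - i).val ≠ 0 := by
      rw [Ne, ZMod.val_eq_zero, sub_eq_zero]
      rintro rfl
      exact hq.2.1 rfl
    have hjn := ZMod.val_lt (j - i)
    refine ⟨(j - i).val, ?_, by rw [hj]⟩
    rw [mem_filter, mem_Icc]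
    refine ⟨by omega, ?_⟩
    unfold cz
    rw [hj]
    exact hq.2.2

theorem sum_ks_zw [NeZero n] (h : Pol n S w) (h3 : 3 ≤ n) (D : ℝ) :
    ∑ i, ks n (cz (zw n w) i) D = Rn S D := by
  have hz := zp_of_pol h h3
  have h1 : ∑ i : ZMod n, kd S D (zw n w i) = ∑ p ∈ (Finset.univ : Finset (ZMod n)).image (zw n w), kd S D p := by
    rw [Finset.sum_image fun i _ j _ e => hz.inj e]
  rw [zw_image h, ← Rn_eq] at h1
  rw [← h1]
  exact Finset.sum_congr rfl fun i _ => (kd_zw h h3 D i).symm

theorem uni_inverse {S : Finset ℂ} (hS : Cx S) (h3 : 3 ≤ S.card) (hU : Unm S) {t η : ℝ}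
    (ht0 : 0 < t) (hη0 : 0 < η) (hη1 : η ≤ 1) (htη : t ≤ η ^ 2 / 40) (hn : 3 ≤ t ^ 4 / 10 * S.card)
    (hQ : (2 - ((t ^ 4 / 10) ^ 2) ^ 2) * (S.card : ℝ) ^ 3 ≤ Qn S) :
    ∃ (O : ℂ) (r : ℝ), ((S.filter (fun x => dist x O ≠ r)).card : ℝ) ≤ η * S.card := by
  classical
  obtain ⟨w, hw⟩ := exists_pol hS h3
  haveI : NeZero S.card := ⟨by omega⟩
  have hz := zp_of_pol hw h3
  have hη2 : η ^ 2 ≤ η := by nlinarith
  have ht1 : t ≤ 1 / 40 := by nlinarith
  have hF : Fam S.card (cz (zw S.card w)) (ds S) ((t ^ 4 / 10) ^ 2) := by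
    refine ⟨ZMod.card _, by omega, ?_, ?_, by positivity, ?_, ?_⟩
    · intro i s hs1 hsn
      unfold cz
      refine mem_ds (hw.mem _) (hw.mem _) ?_
      intro e
      have h1 : (s : ZMod S.card) = 0 := left_eq_add.1 (hz.inj e)
      rw [ZMod.natCast_eq_zero_iff] at h1
      exact absurd (Nat.le_of_dvd (by omega) h1) (by omega)
    · intro i D
      obtain ⟨a, ha⟩ := zw_uni hw h3 hU i
      exact ha.ks_le D
    · have h4 : t ^ 4 ≤ 1 := by
        have := pow_le_pow_left₀ ht0.le (show t ≤ 1 by linarith) 4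
        rwa [one_pow] at this
      have h5 : 0 ≤ t ^ 4 := by positivity
      nlinarith
    · rw [Finset.sum_congr rfl fun D _ => by rw [sum_ks_zw hw h3 D]]
      have : (Qn S : ℝ) = ∑ D ∈ ds S, ((Rn S D : ℕ) : ℝ) ^ 2 := by
        rw [Qn_ds]; push_cast; rfl
      rw [← this]
      exact hQ
  obtain ⟨O, r, hr⟩ := inverse hz hF (zw_uni hw h3 hU) ht0 hη0 hη1 htη hn
  refine ⟨O, r, le_trans (Nat.cast_le.2 ?_) hr⟩
  have h1 : S.filter (fun x => dist x O ≠ r) =
      ((Finset.univ : Finset (ZMod S.card)).filter (fun i => dist (zw S.card w i) O ≠ r)).image (zw S.card w) := by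
    conv_lhs => rw [← zw_image hw]
    rw [Finset.filter_image]
  rw [h1]
  exact Finset.card_image_le

end Pool.Agent.Lib.MP_0d8f69_coZ
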