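import Pool.Agent.Lib.MP_0d8f69_coZ.Conv

/-!
MP_0d8f69_co, almost unimodal polygons: the theorem.
-/

set_option autoImplicit false

namespace Pool.Agent.Lib.MP_0d8f69_coZ

open Finset Pool.Agent.Lib.MP_0d8f69_co Pool.Agent.Lib.MP_0d8f69_coI

/-- removing the points of `B` -/
theorem Rn_split {S B : Finset ℂ} (hB : B ⊆ S) (D : ℝ) :
    Rn S D ≤ Rn (S \ B) D + 2 * ∑ p ∈ B, kd S D p := by
  rw [Rn_eq S, Rn_eq (S \ B), ← Finset.sum_sdiff hB]
  have h1 : ∀ p ∈ S \ B, kd S D p ≤ kd (S \ B) D p + (B.filter (fun q => dist p q = D)).card := by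
    intro p _
    unfold kd
    refine le_trans (Finset.card_le_card ?_) (Finset.card_union_le _ _)
    intro q hq
    rw [mem_filter] at hq
    rw [mem_union, mem_filter, mem_filter, mem_sdiff]
    by_cases hqB : q ∈ B
    · exact Or.inr ⟨hqB, hq.2.2⟩
    · exact Or.inl ⟨⟨hq.1, hqB⟩, hq.2⟩
  have h2 : ∑ p ∈ S \ B, (B.filter (fun q => dist p q = D)).card ≤ ∑ q ∈ B, kd S D q := by
    have e1 : ∑ p ∈ S \ B, (B.filter (fun q => dist p q = D)).card =
        ∑ q ∈ B, ((S \ B).filter (fun p => dist p q = D)).card := by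
      simp only [Finset.card_filter]
      exact Finset.sum_comm
    rw [e1]
    refine Finset.sum_le_sum fun q hq => ?_
    unfold kd
    refine Finset.card_le_card ?_
    intro p hp
    rw [mem_filter, mem_sdiff] at hp
    rw [mem_filter]
    refine ⟨hp.1.1, ?_, ?_⟩
    · rintro rfl
      exact hp.1.2 hq
    · rw [dist_comm]
      exact hp.2
  have h3 := Finset.sum_le_sum h1
  rw [Finset.sum_add_distrib] at h3
  omega

theorem Qn_split {S B : Finset ℂ} (hS : Cx S) (hB : B ⊆ S)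
    (hk : ∀ p ∈ S \ B, ∀ D : ℝ, kd (S \ B) D p ≤ 2) :
    Qn S ≤ Qn (S \ B) + 20 * (B.card * S.card ^ 2) := by
  have hQ1 := Qn_ds S
  have hQ2 : Qn (S \ B) = ∑ D ∈ ds S, Rn (S \ B) D ^ 2 := by
    refine Qn_eq (S \ B) (ds S) fun p hp => ?_
    rw [mem_offDiag, mem_sdiff, mem_sdiff] at hp
    exact mem_ds hp.1.1 hp.2.1.1 hp.2.2
  have hR2 : ∀ D, Rn (S \ B) D ≤ 2 * S.card := by
    intro D
    rw [Rn_eq]
    calc ∑ p ∈ S \ B, kd (S \ B) D p ≤ ∑ p ∈ S \ B, 2 := Finset.sum_le_sum fun p hp => hk p hp D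
      _ = 2 * (S \ B).card := by rw [Finset.sum_const, smul_eq_mul, mul_comm]
      _ ≤ 2 * S.card := Nat.mul_le_mul_left _ (Finset.card_le_card Finset.sdiff_subset)
  set e : ℝ → ℕ := fun D => ∑ p ∈ B, kd S D p with he
  have h1 : ∀ D ∈ ds S, Rn S D ^ 2 ≤ Rn (S \ B) D ^ 2 + (8 * S.card * e D + 4 * e D ^ 2) := by
    intro D _
    have h2 := Rn_split hB D
    have h3 := hR2 D
    calc Rn S D ^ 2 ≤ (Rn (S \ B) D + 2 * e D) ^ 2 := Nat.pow_le_pow_left h2 2
      _ = Rn (S \ B) D ^ 2 + (4 * Rn (S \ B) D * e D + 4 * e D ^ 2) := by ring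
      _ ≤ Rn (S \ B) D ^ 2 + (8 * S.card * e D + 4 * e D ^ 2) := by
          have h4 : 4 * Rn (S \ B) D * e D ≤ 8 * S.card * e D := Nat.mul_le_mul_right _ (by omega)
          omega
  have h2 : ∑ D ∈ ds S, e D ≤ B.card * S.card := by
    rw [he, Finset.sum_comm]
    calc ∑ p ∈ B, ∑ D ∈ ds S, kd S D p ≤ ∑ p ∈ B, S.card := Finset.sum_le_sum fun p hp => by
          rw [sum_kd (hB hp)]
          omega
      _ = B.card * S.card := by rw [Finset.sum_const, smul_eq_mul]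
  have h3 : ∑ D ∈ ds S, e D ^ 2 ≤ B.card * (3 * S.card ^ 2) := by
    calc ∑ D ∈ ds S, e D ^ 2 ≤ ∑ D ∈ ds S, B.card * ∑ p ∈ B, kd S D p ^ 2 :=
          Finset.sum_le_sum fun D _ => sq_sum_le_card_mul_sum_sq
      _ = B.card * ∑ p ∈ B, ∑ D ∈ ds S, kd S D p ^ 2 := by rw [← Finset.mul_sum, Finset.sum_comm]
      _ = B.card * ∑ p ∈ B, (isp S p + (S.card - 1)) := by
          rw [Finset.sum_congr rfl fun p hp => sum_kd_sq (hB hp)]
      _ ≤ B.card * (3 * S.card ^ 2) := by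
          refine Nat.mul_le_mul_left _ ?_
          calc ∑ p ∈ B, (isp S p + (S.card - 1)) ≤ ∑ p ∈ S, (isp S p + (S.card - 1)) :=
                Finset.sum_le_sum_of_subset_of_nonneg hB fun _ _ _ => Nat.zero_le _
            _ = iso S + S.card * (S.card - 1) := by
                rw [Finset.sum_add_distrib, ← iso_eq, Finset.sum_const, smul_eq_mul]
            _ ≤ 3 * (S.card * (S.card - 1)) := by
                have := iso_le_all hS
                omega
            _ ≤ 3 * S.card ^ 2 := by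
                rw [sq]
                exact Nat.mul_le_mul_left _ (Nat.mul_le_mul_left _ (Nat.sub_le _ _))
  rw [hQ1, hQ2]
  calc ∑ D ∈ ds S, Rn S D ^ 2 ≤ ∑ D ∈ ds S, (Rn (S \ B) D ^ 2 + (8 * S.card * e D + 4 * e D ^ 2)) :=
        Finset.sum_le_sum h1
    _ = ∑ D ∈ ds S, Rn (S \ B) D ^ 2 + (8 * S.card * ∑ D ∈ ds S, e D + 4 * ∑ D ∈ ds S, e D ^ 2) := by
        rw [Finset.sum_add_distrib, Finset.sum_add_distrib, ← Finset.mul_sum, ← Finset.mul_sum]
    _ ≤ ∑ D ∈ ds S, Rn (S \ B) D ^ 2 + 20 * (B.card * S.card ^ 2) := by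
        refine Nat.add_le_add_left ?_ _
        calc 8 * S.card * ∑ D ∈ ds S, e D + 4 * ∑ D ∈ ds S, e D ^ 2
            ≤ 8 * S.card * (B.card * S.card) + 4 * (B.card * (3 * S.card ^ 2)) :=
              Nat.add_le_add (Nat.mul_le_mul_left _ h2) (Nat.mul_le_mul_left _ h3)
          _ = 20 * (B.card * S.card ^ 2) := by ring

theorem kd_le_two {S : Finset ℂ} (hS : Cx S) (h3 : 3 ≤ S.card) (hU : Unm S) :
    ∀ p ∈ S, ∀ D : ℝ, kd S D p ≤ 2 := by
  classical
  obtain ⟨w, hw⟩ := exists_pol hS h3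
  have : NeZero S.card := ⟨by omega⟩
  intro p hp D
  have h1 : p ∈ (Finset.univ : Finset (ZMod S.card)).image (zw S.card w) := by rw [zw_image hw]; exact hp
  obtain ⟨i, _, rfl⟩ := Finset.mem_image.1 h1
  rw [kd_zw hw h3]
  obtain ⟨a, ha⟩ := zw_uni hw h3 hU i
  exact ha.ks_le D

/-- the numerical part -/
theorem numerics {n m g : ℝ} (hm : 10 ^ 170 * m ≤ n) (hm0 : 0 ≤ m) (hn : 10 ^ 170 ≤ n) (hg : g = n - m)
    {t : ℝ} (ht : t = (1 / 20000) ^ 2 / 40) :
    3 ≤ t ^ 4 / 10 * g ∧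
      (2 - ((t ^ 4 / 10) ^ 2) ^ 2) * g ^ 3 ≤ 2 * n ^ 3 - 3 * n ^ 2 - 20 * (m * n ^ 2) := by
  have hm1 : m ≤ n / 10 ^ 170 := by rw [le_div_iff₀ (by positivity)]; linarith
  have hn0 : 0 < n := lt_of_lt_of_le (by positivity) hn
  have hg1 : n / 2 ≤ g := by
    rw [hg]
    have : n / 10 ^ 170 ≤ n / 2 := by
      apply div_le_div_of_nonneg_left hn0.le (by norm_num) (by norm_num)
    linarith
  have hg2 : g ≤ n := by rw [hg]; linarith
  have hg0 : 0 < g := by linarith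
  constructor
  · have h1 : (5 : ℝ) * 10 ^ 169 ≤ g := by
      have : (10 : ℝ) ^ 170 / 2 ≤ n / 2 := by linarith
      have e : (10 : ℝ) ^ 170 / 2 = 5 * 10 ^ 169 := by norm_num
      linarith
    have h2 : (3 : ℝ) ≤ t ^ 4 / 10 * (5 * 10 ^ 169) := by
      rw [ht]
      norm_num
    have h3 : 0 ≤ t ^ 4 / 10 := by rw [ht]; positivity
    exact h2.trans (mul_le_mul_of_nonneg_left h1 h3)
  · set d := ((t ^ 4 / 10) ^ 2) ^ 2 with hd
    have hdlow : (4 : ℝ) / 10 ^ 168 ≤ d := by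
      rw [hd, ht]
      norm_num
    have h3n : 3 * n ^ 2 ≤ 3 / 10 ^ 170 * n ^ 3 := by
      have : 1 ≤ n / 10 ^ 170 := by rw [le_div_iff₀ (by positivity)]; linarith
      calc 3 * n ^ 2 = 3 * n ^ 2 * 1 := by ring
        _ ≤ 3 * n ^ 2 * (n / 10 ^ 170) := mul_le_mul_of_nonneg_left this (by positivity)
        _ = 3 / 10 ^ 170 * n ^ 3 := by ring
    have h20 : 20 * (m * n ^ 2) ≤ 20 / 10 ^ 170 * n ^ 3 := by
      calc 20 * (m * n ^ 2) ≤ 20 * (n / 10 ^ 170 * n ^ 2) := by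
            refine mul_le_mul_of_nonneg_left (mul_le_mul_of_nonneg_right hm1 (by positivity)) (by norm_num)
        _ = 20 / 10 ^ 170 * n ^ 3 := by ring
    have hg3 : n ^ 3 / 8 ≤ g ^ 3 := by
      have := pow_le_pow_left₀ (by linarith) hg1 3
      have e : (n / 2) ^ 3 = n ^ 3 / 8 := by ring
      linarith
    have hg4 : g ^ 3 ≤ n ^ 3 := pow_le_pow_left₀ hg0.le hg2 3
    have hdg : 4 / 10 ^ 168 * (n ^ 3 / 8) ≤ d * g ^ 3 := by
      refine mul_le_mul hdlow hg3 (by positivity) (le_trans (by positivity) hdlow)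
    have hn3 : 0 ≤ n ^ 3 := by positivity
    have e1 : 3 / 10 ^ 170 * n ^ 3 + 20 / 10 ^ 170 * n ^ 3 ≤ 4 / 10 ^ 168 * (n ^ 3 / 8) := by
      have : 4 / 10 ^ 168 * (n ^ 3 / 8) = 50 / 10 ^ 170 * n ^ 3 := by
        ring
      rw [this, ← add_mul]
      refine mul_le_mul_of_nonneg_right ?_ hn3
      norm_num
    have e2 : (2 - d) * g ^ 3 = 2 * g ^ 3 - d * g ^ 3 := by ring
    rw [e2]
    linarith

theorem nearly {S B : Finset ℂ} (hS : Cx S) (h3 : 3 ≤ S.card) (hB : B ⊆ S) (hcard : 10 ^ 170 * B.card ≤ S.card)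
    (hU : Unm (S \ B)) :
    Qn S ≤ Qn (mu S.card) ∧
      (Qn S = Qn (mu S.card) → ∃ a b : ℂ, a ≠ 0 ∧ S = (mu S.card).image (fun z => a * z + b)) := by
  classical
  by_cases hB0 : B = ∅
  · rw [hB0, Finset.sdiff_empty] at hU
    exact MP_0d8f69_coI.main hS h3 (iso_le (kd_le_two hS h3 hU))
  have hm1 : 1 ≤ B.card := Finset.card_pos.2 (Finset.nonempty_iff_ne_empty.2 hB0)
  have h1 := Qn_mu (n := S.card) (by omega)
  by_cases hbig : Qn S + 3 * S.card ^ 2 < 2 * S.card ^ 3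
  · have h2 : Qn S < Qn (mu S.card) := by omega
    exact ⟨h2.le, fun h => absurd h h2.ne⟩
  rw [not_lt] at hbig
  have hm : (10 : ℝ) ^ 170 * B.card ≤ S.card := by exact_mod_cast hcard
  have hm1' : (1 : ℝ) ≤ B.card := by exact_mod_cast hm1
  have hn : (10 : ℝ) ^ 170 ≤ S.card := le_trans (by
    calc (10 : ℝ) ^ 170 = 10 ^ 170 * 1 := (mul_one _).symm
      _ ≤ 10 ^ 170 * (B.card : ℝ) := mul_le_mul_of_nonneg_left hm1' (by positivity)) hm
  have hcs : ((S \ B).card : ℝ) = (S.card : ℝ) - B.card := by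
    rw [Finset.card_sdiff_of_subset hB, Nat.cast_sub (Finset.card_le_card hB)]
  obtain ⟨n1, n2⟩ := numerics hm (by positivity) hn hcs (t := (1 / 20000) ^ 2 / 40) rfl
  have hS' : Cx (S \ B) := cvx_subset hS Finset.sdiff_subset
  have h3' : 3 ≤ (S \ B).card := by
    have e1 : ((((1 : ℝ) / 20000) ^ 2 / 40) ^ 4 / 10) * ((S \ B).card : ℝ) ≤ 1 * ((S \ B).card : ℝ) := by
      refine mul_le_mul_of_nonneg_right ?_ (Nat.cast_nonneg _)
      norm_num
    have e2 : (3 : ℝ) ≤ ((S \ B).card : ℝ) := by linarith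
    exact_mod_cast e2
  have hk := kd_le_two hS' h3' hU
  have hQ := Qn_split hS hB hk
  have hQ' : (Qn S : ℝ) ≤ Qn (S \ B) + 20 * (B.card * (S.card : ℝ) ^ 2) := by exact_mod_cast hQ
  have hbig' : 2 * (S.card : ℝ) ^ 3 ≤ Qn S + 3 * (S.card : ℝ) ^ 2 := by exact_mod_cast hbig
  obtain ⟨O, r, hr⟩ := uni_inverse hS' h3' hU (t := (1 / 20000) ^ 2 / 40) (η := 1 / 20000) (by norm_num)
    (by norm_num) (by norm_num) le_rfl n1 (n2.trans (by linarith))
  have hsub : S.filter (fun z => dist z O ≠ r) ⊆ (S \ B).filter (fun x => dist x O ≠ r) ∪ B := by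
    intro z hz
    rw [mem_filter] at hz
    rw [mem_union, mem_filter, mem_sdiff]
    by_cases hzB : z ∈ B
    · exact Or.inr hzB
    · exact Or.inl ⟨⟨hz.1, hzB⟩, hz.2⟩
  have hfew : ((S.filter (fun z => dist z O ≠ r)).card : ℝ) ≤ 1 / 20000 * (S \ B).card + B.card := by
    have e1 : (S.filter (fun z => dist z O ≠ r)).card ≤ ((S \ B).filter (fun x => dist x O ≠ r)).card + B.card :=
      (Finset.card_le_card hsub).trans (Finset.card_union_le _ _)
    have e2 : ((S.filter (fun z => dist z O ≠ r)).card : ℝ) ≤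
        ((S \ B).filter (fun x => dist x O ≠ r)).card + B.card := by exact_mod_cast e1
    linarith
  have hfin : 10000 * (S.filter (fun z => dist z O ≠ r)).card ≤ S.card := by
    have e1 : (10000 : ℝ) * ((S.filter (fun z => dist z O ≠ r)).card : ℝ) ≤ S.card := by
      have e2 : (20000 : ℝ) * B.card ≤ 10 ^ 170 * B.card :=
        mul_le_mul_of_nonneg_right (by norm_num) (Nat.cast_nonneg _)
      rw [hcs] at hfew
      linarith
    exact_mod_cast e1
  rcases Lib.MP_0d8f69_co.main hS h3 hfin with ⟨a, b, ha, h⟩ | h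
  · refine ⟨?_, fun _ => ⟨a, b, ha, h⟩⟩
    have h4 := Qn_si ha b (mu S.card)
    have h5 : (mu S.card).image (si a b) = S := h.symm
    rw [h5] at h4
    exact h4.le
  · have h2 : Qn S < Qn (mu S.card) := by omega
    exact ⟨h2.le, fun h => absurd h h2.ne⟩

end Pool.Agent.Lib.MP_0d8f69_coZ
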