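import Mathlib

/-!
MP_0d8f69_co, almost unimodal polygons: the sequence of distances seen from one vertex.
-/

set_option autoImplicit false

namespace Pool.Agent.Lib.MP_0d8f69_coZ

open Finset

/-- `c 1, …, c (n - 1)` increases up to `a` and decreases after `a` -/
structure Uni (n : ℕ) (c : ℕ → ℝ) (a : ℕ) : Prop where
  lt : a < n
  inc : ∀ i j, 1 ≤ i → i < j → j ≤ a → c i < c j
  dec : ∀ i j, a < i → i < j → j < n → c j < c i

theorem Uni.rev {n : ℕ} {c : ℕ → ℝ} {a : ℕ} (h : Uni n c a) : Uni n (fun s => c (n - s)) (n - 1 - a) := by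
  have := h.lt
  refine ⟨by omega, ?_, ?_⟩
  · intro i j hi hij hj
    exact h.dec (n - j) (n - i) (by omega) (by omega) (by omega)
  · intro i j hi hij hj
    exact h.inc (n - j) (n - i) (by omega) (by omega) (by omega)

/-- unimodality gives a peak -/
theorem exists_uni {n : ℕ} (hn : 2 ≤ n) {c : ℕ → ℝ}
    (h : ∀ i j k, 1 ≤ i → i < j → j < k → k < n → min (c i) (c k) < c j) : ∃ a, 1 ≤ a ∧ Uni n c a := by
  obtain ⟨a, ha, hmax⟩ := Finset.exists_max_image (Finset.Icc 1 (n - 1)) c ⟨1, Finset.mem_Icc.2 ⟨le_rfl, by omega⟩⟩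
  rw [Finset.mem_Icc] at ha
  -- first index of the maximum
  have hex : ∃ b, 1 ≤ b ∧ b < n ∧ c b = c a := ⟨a, ha.1, by omega, rfl⟩
  classical
  let b := Nat.find hex
  have hb := Nat.find_spec hex
  have hmin : ∀ m, m < b → ¬ (1 ≤ m ∧ m < n ∧ c m = c a) := fun m hm => Nat.find_min hex hm
  have hle : ∀ i, 1 ≤ i → i < n → c i ≤ c b := by
    intro i h1 h2
    rw [hb.2.2]
    exact hmax i (Finset.mem_Icc.2 ⟨h1, by omega⟩)
  have hlt : ∀ i, 1 ≤ i → i < b → c i < c b := by
    intro i h1 h2
    refine lt_of_le_of_ne (hle i h1 (by have := hb.2.1; omega)) fun he => ?_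
    exact hmin i h2 ⟨h1, by have := hb.2.1; omega, by rw [he, hb.2.2]⟩
  refine ⟨b, hb.1, hb.2.1, ?_, ?_⟩
  · intro i j hi hij hj
    rcases Nat.lt_or_ge j b with hjb | hjb
    · have h1 := h i j b hi hij hjb hb.2.1
      rcases min_lt_iff.1 h1 with h2 | h2
      · exact h2
      · exact absurd (hlt j (by omega) hjb) (not_lt.2 h2.le)
    · have : j = b := by omega
      rw [this]
      exact hlt i hi (by omega)
  · intro i j hi hij hj
    have h1 := h b i j hb.1 hi hij hj
    rcases min_lt_iff.1 h1 with h2 | h2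
    · exact absurd (hle i (by omega) (by omega)) (not_le.2 h2)
    · exact h2

/-- the next popular value -/
def Nx (P : Finset ℝ) (D E : ℝ) : Prop := D ∈ P ∧ E ∈ P ∧ D < E ∧ ∀ F ∈ P, ¬ (D < F ∧ F < E)

noncomputable instance (P : Finset ℝ) (D E : ℝ) : Decidable (Nx P D E) := Classical.dec _

theorem Nx.unique_left {P : Finset ℝ} {D D' E : ℝ} (h : Nx P D E) (h' : Nx P D' E) : D = D' := by
  rcases lt_trichotomy D D' with h1 | h1 | h1
  · exact absurd ⟨h1, h'.2.2.1⟩ (h.2.2.2 D' h'.1)
  · exact h1
  · exact absurd ⟨h1, h.2.2.1⟩ (h'.2.2.2 D h.1)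

theorem Nx.unique_right {P : Finset ℝ} {D E E' : ℝ} (h : Nx P D E) (h' : Nx P D E') : E = E' := by
  rcases lt_trichotomy E E' with h1 | h1 | h1
  · exact absurd ⟨h.2.2.1, h1⟩ (h'.2.2.2 E h.2.1)
  · exact h1
  · exact absurd ⟨h'.2.2.1, h1⟩ (h.2.2.2 E' h'.2.1)

/-- number of indices with the value `D` -/
noncomputable def ks (n : ℕ) (c : ℕ → ℝ) (D : ℝ) : ℕ := ((Finset.Icc 1 (n - 1)).filter (fun s => c s = D)).card

/-- number of indices with an unpopular value -/
noncomputable def us (n : ℕ) (c : ℕ → ℝ) (P : Finset ℝ) : ℕ := ((Finset.Icc 1 (n - 1)).filter (fun s => c s ∉ P)).card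

/-- number of popular values seen less than twice -/
noncomputable def ms (n : ℕ) (c : ℕ → ℝ) (P : Finset ℝ) : ℕ := (P.filter (fun D => ks n c D < 2)).card

variable {n : ℕ} {c : ℕ → ℝ} {a : ℕ} {P : Finset ℝ}

theorem Uni.left_le_one (h : Uni n c a) (D : ℝ) :
    ((Finset.Icc (a + 1) (n - 1)).filter (fun s => c s = D)).card ≤ 1 := by
  rw [Finset.card_le_one]
  intro i hi j hj
  rw [mem_filter, mem_Icc] at hi hj
  by_contra hij
  rcases lt_or_gt_of_ne hij with h1 | h1
  · have := h.dec i j (by omega) h1 (by omega)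
    rw [hi.2, hj.2] at this
    exact lt_irrefl _ this
  · have := h.dec j i (by omega) h1 (by omega)
    rw [hi.2, hj.2] at this
    exact lt_irrefl _ this

theorem Uni.right_le_one (h : Uni n c a) (D : ℝ) :
    ((Finset.Icc 1 a).filter (fun s => c s = D)).card ≤ 1 := by
  rw [Finset.card_le_one]
  intro i hi j hj
  rw [mem_filter, mem_Icc] at hi hj
  by_contra hij
  rcases lt_or_gt_of_ne hij with h1 | h1
  · have := h.inc i j (by omega) h1 (by omega)
    rw [hi.2, hj.2] at this
    exact lt_irrefl _ this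
  · have := h.inc j i (by omega) h1 (by omega)
    rw [hi.2, hj.2] at this
    exact lt_irrefl _ this

theorem Uni.ks_split (h : Uni n c a) (D : ℝ) : ks n c D =
    ((Finset.Icc 1 a).filter (fun s => c s = D)).card + ((Finset.Icc (a + 1) (n - 1)).filter (fun s => c s = D)).card := by
  unfold ks
  have := h.lt
  have e : Finset.Icc 1 (n - 1) = Finset.Icc 1 a ∪ Finset.Icc (a + 1) (n - 1) := by
    ext s
    simp only [mem_union, mem_Icc]
    omega
  rw [e, Finset.filter_union, Finset.card_union_of_disjoint]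
  rw [Finset.disjoint_left]
  intro s h1 h2
  rw [mem_filter, mem_Icc] at h1 h2
  omega

theorem Uni.ks_le (h : Uni n c a) (D : ℝ) : ks n c D ≤ 2 := by
  rw [h.ks_split]
  have h1 := h.left_le_one D
  have h2 := h.right_le_one D
  omega

/-- a value seen twice is seen on the right branch -/
theorem Uni.exists_right (h : Uni n c a) {D : ℝ} (hD : 2 ≤ ks n c D) : ∃ s, 1 ≤ s ∧ s ≤ a ∧ c s = D := by
  rw [h.ks_split] at hD
  have h1 := h.left_le_one D
  have h2 : 0 < ((Finset.Icc 1 a).filter (fun s => c s = D)).card := by omega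
  obtain ⟨s, hs⟩ := Finset.card_pos.1 h2
  rw [mem_filter, mem_Icc] at hs
  exact ⟨s, hs.1.1, hs.1.2, hs.2⟩

theorem Uni.card_le_right (h : Uni n c a) : P.card ≤ a + ms n c P := by
  unfold ms
  have h1 : P.filter (fun D => ¬ ks n c D < 2) ⊆ (Finset.Icc 1 a).image c := by
    intro D hD
    rw [mem_filter] at hD
    obtain ⟨s, h1, h2, h3⟩ := h.exists_right (D := D) (by omega)
    exact Finset.mem_image.2 ⟨s, mem_Icc.2 ⟨h1, h2⟩, h3⟩
  have h2 := (Finset.card_le_card h1).trans Finset.card_image_le
  rw [Nat.card_Icc] at h2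
  have h3 := Finset.card_filter_add_card_filter_not (s := P) (fun D => ks n c D < 2)
  omega

/-- imperfect steps on the right branch -/
theorem Uni.right_bad (h : Uni n c a) :
    ((Finset.Ico 1 a).filter (fun s => ¬ Nx P (c s) (c (s + 1)))).card ≤ 2 * us n c P + ms n c P := by
  classical
  have hlt := h.lt
  have hsub : (Finset.Ico 1 a).filter (fun s => ¬ Nx P (c s) (c (s + 1))) ⊆
      (Finset.Ico 1 a).filter (fun s => c s ∉ P) ∪ ((Finset.Ico 1 a).filter (fun s => c (s + 1) ∉ P) ∪
        (Finset.Ico 1 a).filter (fun s => ∃ F ∈ P, c s < F ∧ F < c (s + 1))) := by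
    intro s hs
    rw [mem_filter] at hs
    rw [mem_union, mem_union, mem_filter, mem_filter, mem_filter]
    by_cases h1 : c s ∈ P
    · by_cases h2 : c (s + 1) ∈ P
      · right; right
        refine ⟨hs.1, ?_⟩
        by_contra h3
        apply hs.2
        rw [mem_Ico] at hs
        exact ⟨h1, h2, h.inc s (s + 1) hs.1.1 (by omega) (by omega), fun F hF hF' => h3 ⟨F, hF, hF'⟩⟩
      · exact Or.inr (Or.inl ⟨hs.1, h2⟩)
    · exact Or.inl ⟨hs.1, h1⟩
  have hA : ((Finset.Ico 1 a).filter (fun s => c s ∉ P)).card ≤ us n c P := by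
    unfold us
    apply Finset.card_le_card
    intro s hs
    rw [mem_filter, mem_Ico] at hs
    rw [mem_filter, mem_Icc]
    exact ⟨by omega, hs.2⟩
  have hB : ((Finset.Ico 1 a).filter (fun s => c (s + 1) ∉ P)).card ≤ us n c P := by
    unfold us
    apply Finset.card_le_card_of_injOn (fun s => s + 1)
    · intro s hs
      rw [Finset.mem_coe, mem_filter, mem_Ico] at hs
      rw [Finset.mem_coe, mem_filter, mem_Icc]
      refine ⟨?_, hs.2⟩
      show 1 ≤ s + 1 ∧ s + 1 ≤ n - 1
      omega
    · intro x _ y _ hxy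
      simp only at hxy
      omega
  have hC : ((Finset.Ico 1 a).filter (fun s => ∃ F ∈ P, c s < F ∧ F < c (s + 1))).card ≤ ms n c P := by
    have hex : ∀ s, ∃ F, (s ∈ (Finset.Ico 1 a).filter (fun s => ∃ F ∈ P, c s < F ∧ F < c (s + 1))) →
        F ∈ P ∧ c s < F ∧ F < c (s + 1) := by
      intro s
      by_cases hs : s ∈ (Finset.Ico 1 a).filter (fun s => ∃ F ∈ P, c s < F ∧ F < c (s + 1))
      · obtain ⟨F, hF, hF'⟩ := (mem_filter.1 hs).2
        exact ⟨F, fun _ => ⟨hF, hF'⟩⟩
      · exact ⟨0, fun h => absurd h hs⟩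
    choose f hf using hex
    unfold ms
    apply Finset.card_le_card_of_injOn f
    · intro s hs
      have hs' := Finset.mem_coe.1 hs
      have h1 := hf s hs'
      rw [mem_filter, mem_Ico] at hs'
      rw [Finset.mem_coe, mem_filter]
      refine ⟨h1.1, ?_⟩
      by_contra h2
      obtain ⟨t, ht1, hta, ht⟩ := h.exists_right (D := f s) (by omega)
      rcases Nat.lt_or_ge s t with h3 | h3
      · rcases Nat.lt_or_ge (s + 1) t with h4 | h4
        · have := h.inc (s + 1) t (by omega) h4 hta
          rw [ht] at this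
          linarith [h1.2.2]
        · have : t = s + 1 := by omega
          rw [this] at ht
          linarith [h1.2.2]
      · rcases Nat.lt_or_ge t s with h4 | h4
        · have := h.inc t s (by omega) h4 (by omega)
          rw [ht] at this
          linarith [h1.2.1]
        · have : t = s := by omega
          rw [this] at ht
          linarith [h1.2.1]
    · intro x hx y hy hxy
      have hx' := Finset.mem_coe.1 hx
      have hy' := Finset.mem_coe.1 hy
      have h1 := hf x hx'
      have h2 := hf y hy'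
      rw [mem_filter, mem_Ico] at hx' hy'
      rw [← hxy] at h2
      by_contra hne
      rcases lt_or_gt_of_ne hne with h3 | h3
      · rcases Nat.lt_or_ge (x + 1) y with h4 | h4
        · have := h.inc (x + 1) y (by omega) h4 (by omega)
          linarith [h1.2.2, h2.2.1]
        · have : y = x + 1 := by omega
          rw [this] at h2
          linarith [h1.2.2, h2.2.1]
      · rcases Nat.lt_or_ge (y + 1) x with h4 | h4
        · have := h.inc (y + 1) x (by omega) h4 (by omega)
          linarith [h1.2.1, h2.2.2]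
        · have : x = y + 1 := by omega
          subst this
          linarith [h1.2.1, h2.2.2]
  have h1 := (Finset.card_le_card hsub).trans (Finset.card_union_le _ _)
  have h2 := Finset.card_union_le ((Finset.Ico 1 a).filter (fun s => c (s + 1) ∉ P))
    ((Finset.Ico 1 a).filter (fun s => ∃ F ∈ P, c s < F ∧ F < c (s + 1)))
  omega

end Pool.Agent.Lib.MP_0d8f69_coZ
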