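import Pool.Agent.Lib.MP_0d8f69_coZ.Cnt

/-!
MP_0d8f69_co, almost unimodal polygons: almost all distances are invariant under the shift of the vertices.
-/

set_option autoImplicit false

namespace Pool.Agent.Lib.MP_0d8f69_coZ

open Finset

/-- the distances seen from the vertex `i` in cyclic order -/
noncomputable def cz {n : ℕ} (z : ZMod n → ℂ) (i : ZMod n) (s : ℕ) : ℝ := dist (z i) (z (i + (s : ZMod n)))

theorem ks_rev {n : ℕ} (c : ℕ → ℝ) (D : ℝ) : ks n (fun s => c (n - s)) D = ks n c D := by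
  unfold ks
  refine Finset.card_bij (fun s _ => n - s) ?_ ?_ ?_
  · intro s hs
    rw [mem_filter, mem_Icc] at hs ⊢
    exact ⟨by omega, hs.2⟩
  · intro s hs t ht hst
    rw [mem_filter, mem_Icc] at hs ht
    omega
  · intro s hs
    rw [mem_filter, mem_Icc] at hs
    refine ⟨n - s, ?_, by omega⟩
    rw [mem_filter, mem_Icc]
    refine ⟨by omega, ?_⟩
    have e : n - (n - s) = s := by omega
    show c (n - (n - s)) = D
    rw [e]
    exact hs.2

theorem us_rev {n : ℕ} (c : ℕ → ℝ) (P : Finset ℝ) : us n (fun s => c (n - s)) P = us n c P := by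
  unfold us
  refine Finset.card_bij (fun s _ => n - s) ?_ ?_ ?_
  · intro s hs
    rw [mem_filter, mem_Icc] at hs ⊢
    exact ⟨by omega, hs.2⟩
  · intro s hs t ht hst
    rw [mem_filter, mem_Icc] at hs ht
    omega
  · intro s hs
    rw [mem_filter, mem_Icc] at hs
    refine ⟨n - s, ?_, by omega⟩
    rw [mem_filter, mem_Icc]
    refine ⟨by omega, ?_⟩
    have e : n - (n - s) = s := by omega
    show c (n - (n - s)) ∉ P
    rw [e]
    exact hs.2

theorem ms_rev {n : ℕ} (c : ℕ → ℝ) (P : Finset ℝ) : ms n (fun s => c (n - s)) P = ms n c P := by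
  unfold ms
  congr 1
  refine Finset.filter_congr fun D _ => ?_
  rw [ks_rev]

variable {n : ℕ} [NeZero n] {z : ZMod n → ℂ} {Δ : Finset ℝ} {κ : ℝ}

theorem cz_rev (z : ZMod n → ℂ) (i : ZMod n) {s : ℕ} (hs : s ≤ n) :
    cz z (i + s) (n - s) = cz z i s := by
  unfold cz
  have e : i + (s : ZMod n) + ((n - s : ℕ) : ZMod n) = i := by
    rw [add_assoc, ← Nat.cast_add, Nat.add_sub_cancel' hs, ZMod.natCast_self, add_zero]
  rw [e, dist_comm]

/-- the vertices missing few popular distances -/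
def Cen (n : ℕ) (z : ZMod n → ℂ) (Δ : Finset ℝ) (κ : ℝ) (i : ZMod n) [NeZero n] : Prop :=
  ((ms n (cz z i) (PP n (cz z) Δ (κ ^ 2)) : ℕ) : ℝ) ≤ κ * n

noncomputable instance (i : ZMod n) : Decidable (Cen n z Δ κ i) := Classical.dec _

theorem card_not_cen (hF : Fam n (cz z) Δ (κ ^ 2)) (hκ0 : 0 < κ) :
    (((Finset.univ : Finset (ZMod n)).filter (fun i => ¬ Cen n z Δ κ i)).card : ℝ) ≤ κ * n := by
  have hn : (2 : ℝ) ≤ n := by exact_mod_cast hF.pos
  have h1 : κ * n * (((Finset.univ : Finset (ZMod n)).filter (fun i => ¬ Cen n z Δ κ i)).card : ℝ) ≤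
      κ * n * (κ * n) := by
    calc κ * n * (((Finset.univ : Finset (ZMod n)).filter (fun i => ¬ Cen n z Δ κ i)).card : ℝ) =
          ∑ i ∈ (Finset.univ : Finset (ZMod n)).filter (fun i => ¬ Cen n z Δ κ i), κ * n := by
          rw [Finset.sum_const, nsmul_eq_mul]; ring
      _ ≤ ∑ i ∈ (Finset.univ : Finset (ZMod n)).filter (fun i => ¬ Cen n z Δ κ i),
            ((ms n (cz z i) (PP n (cz z) Δ (κ ^ 2)) : ℕ) : ℝ) := by
          refine Finset.sum_le_sum fun i hi => ?_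
          have h2 := (mem_filter.1 hi).2
          unfold Cen at h2
          exact (not_le.1 h2).le
      _ ≤ ∑ i, ((ms n (cz z i) (PP n (cz z) Δ (κ ^ 2)) : ℕ) : ℝ) :=
          Finset.sum_le_sum_of_subset_of_nonneg (Finset.filter_subset _ _) fun _ _ _ => Nat.cast_nonneg _
      _ = ((∑ i, ms n (cz z i) (PP n (cz z) Δ (κ ^ 2)) : ℕ) : ℝ) := by rw [Nat.cast_sum]
      _ ≤ κ ^ 2 * n ^ 2 := hF.sum_ms
      _ = κ * n * (κ * n) := by ring
  exact le_of_mul_le_mul_left h1 (mul_pos hκ0 (by linarith))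

/-- all the steps up to `h` are on the two branches of a central vertex -/
theorem Cen.branch (hF : Fam n (cz z) Δ (κ ^ 2)) (hκ0 : 0 < κ) (hκ1 : κ ≤ 1 / 6) {i : ZMod n} (hc : Cen n z Δ κ i)
    {a : ℕ} (ha : Uni n (cz z i) a) {s : ℕ} (hs : (s : ℝ) + 2 ≤ n / 2 - 2 * κ * n) : s < a ∧ s < n - 1 - a := by
  have hn : (2 : ℝ) ≤ n := by exact_mod_cast hF.pos
  have h1 := ha.card_le_right (P := PP n (cz z) Δ (κ ^ 2))
  have h2 := ha.rev.card_le_right (P := PP n (cz z) Δ (κ ^ 2))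
  rw [ms_rev] at h2
  have h3 := hF.card_PP_ge
  unfold Cen at hc
  have h1' : ((PP n (cz z) Δ (κ ^ 2)).card : ℝ) ≤ a + (ms n (cz z i) (PP n (cz z) Δ (κ ^ 2)) : ℕ) := by
    exact_mod_cast h1
  have h2' : ((PP n (cz z) Δ (κ ^ 2)).card : ℝ) ≤ ((n - 1 - a : ℕ) : ℝ) +
      (ms n (cz z i) (PP n (cz z) Δ (κ ^ 2)) : ℕ) := by
    exact_mod_cast h2
  have h4 : κ ^ 2 * n ≤ κ * n := by
    have : κ ^ 2 ≤ κ := by nlinarith
    exact mul_le_mul_of_nonneg_right this (by linarith)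
  have h5 : 0 < κ * n := mul_pos hκ0 (by linarith)
  constructor
  · have : (s : ℝ) < a := by nlinarith
    exact_mod_cast this
  · have : (s : ℝ) < ((n - 1 - a : ℕ) : ℝ) := by nlinarith
    exact_mod_cast this

/-- imperfect steps of the vertex `i` on the right branch -/
noncomputable def Rb (n : ℕ) (z : ZMod n → ℂ) (P : Finset ℝ) (a : ℕ) (i : ZMod n) : Finset ℕ :=
  (Finset.Ico 1 a).filter (fun s => ¬ Nx P (cz z i s) (cz z i (s + 1)))

/-- imperfect steps of the vertex `i` on the left branch -/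
noncomputable def Lb (n : ℕ) (z : ZMod n → ℂ) (P : Finset ℝ) (a : ℕ) (i : ZMod n) : Finset ℕ :=
  (Finset.Ico 1 (n - 1 - a)).filter (fun s => ¬ Nx P (cz z i (n - s)) (cz z i (n - (s + 1))))

theorem card_Rb {P : Finset ℝ} {a : ℕ} {i : ZMod n} (h : Uni n (cz z i) a) :
    (Rb n z P a i).card ≤ 2 * us n (cz z i) P + ms n (cz z i) P := h.right_bad

theorem card_Lb {P : Finset ℝ} {a : ℕ} {i : ZMod n} (h : Uni n (cz z i) a) :
    (Lb n z P a i).card ≤ 2 * us n (cz z i) P + ms n (cz z i) P := by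
  have h1 := h.rev.right_bad (P := P)
  rw [us_rev, ms_rev] at h1
  exact h1

theorem sum_bad (hF : Fam n (cz z) Δ (κ ^ 2)) :
    ((∑ i, (2 * us n (cz z i) (PP n (cz z) Δ (κ ^ 2)) + ms n (cz z i) (PP n (cz z) Δ (κ ^ 2))) : ℕ) : ℝ) ≤
      3 * κ ^ 2 * n ^ 2 := by
  have h1 := hF.sum_us
  have h2 := hF.sum_ms
  rw [Finset.sum_add_distrib, ← Finset.mul_sum]
  push_cast at h1 h2 ⊢
  linarith

/-- the key step -/
theorem key_step {P : Finset ℝ} {i : ZMod n} {s : ℕ} (hsn : s + 1 < n)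
    (h1 : Nx P (cz z i s) (cz z i (s + 1)))
    (h2 : Nx P (cz z (i + (s + 1 : ℕ)) (n - s)) (cz z (i + (s + 1 : ℕ)) (n - (s + 1)))) :
    cz z (i + 1) s = cz z i s := by
  have e1 : cz z (i + (s + 1 : ℕ)) (n - (s + 1)) = cz z i (s + 1) := cz_rev z i (by omega)
  have e2 : cz z (i + (s + 1 : ℕ)) (n - s) = cz z (i + 1) s := by
    have := cz_rev z (i + 1) (s := s) (by omega)
    rw [← this]
    congr 1
    push_cast
    ring
  rw [e1, e2] at h2
  exact h2.unique_left h1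

end Pool.Agent.Lib.MP_0d8f69_coZ
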