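import Pool.Agent.Lib.MP_0d8f69_coZ.Shift

/-!
MP_0d8f69_co, almost unimodal polygons: counting the exceptional pairs.
-/

set_option autoImplicit false

namespace Pool.Agent.Lib.MP_0d8f69_coZ

open Finset

variable {n : ℕ} [NeZero n] {z : ZMod n → ℂ} {Δ : Finset ℝ} {κ : ℝ}

theorem card_biUnion_image_le {β γ : Type} [DecidableEq γ] (F : β → Finset ℕ) (T : Finset β) (g : β → ℕ → γ) :
    (T.biUnion (fun i => (F i).image (g i))).card ≤ ∑ i ∈ T, (F i).card :=
  Finset.card_biUnion_le.trans (Finset.sum_le_sum fun _ _ => Finset.card_image_le)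

/-- few exceptions to the shift invariance at small separation -/
theorem card_SB (hF : Fam n (cz z) Δ (κ ^ 2)) (hU : ∀ i, ∃ a, Uni n (cz z i) a) (hκ0 : 0 < κ) (hκ1 : κ ≤ 1 / 6)
    {h : ℕ} (hh : (h : ℝ) + 2 ≤ n / 2 - 2 * κ * n) :
    ((((Finset.univ : Finset (ZMod n)) ×ˢ Finset.Icc 1 h).filter
      (fun x : ZMod n × ℕ => cz z x.1 x.2 ≠ cz z (x.1 + 1) x.2)).card : ℝ) ≤ 2 * κ * n ^ 2 := by
  classical
  have hn : (2 : ℝ) ≤ n := by exact_mod_cast hF.pos
  choose a ha using hU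
  set P := PP n (cz z) Δ (κ ^ 2) with hP
  set NC := (Finset.univ : Finset (ZMod n)).filter (fun i => ¬ Cen n z Δ κ i) with hNC
  have hncc := card_not_cen hF hκ0
  rw [← hNC] at hncc
  have hκn : 0 < κ * n := mul_pos hκ0 (by linarith)
  have hh2 : (h : ℝ) ≤ n / 2 := by nlinarith
  have hhn : h + 1 < n := by
    have : ((h + 1 : ℕ) : ℝ) < n := by push_cast; linarith
    exact_mod_cast this
  have hsub : ((Finset.univ : Finset (ZMod n)) ×ˢ Finset.Icc 1 h).filter
      (fun x : ZMod n × ℕ => cz z x.1 x.2 ≠ cz z (x.1 + 1) x.2) ⊆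
      (NC ×ˢ Finset.Icc 1 h) ∪ ((NC ×ˢ Finset.Icc 1 h).image (fun x => (x.1 - ((x.2 + 1 : ℕ) : ZMod n), x.2)) ∪
        ((Finset.univ : Finset (ZMod n)).biUnion (fun i => (Rb n z P (a i) i).image (fun s => (i, s))) ∪
        (Finset.univ : Finset (ZMod n)).biUnion (fun i => (Lb n z P (a i) i).image
          (fun s => (i - ((s + 1 : ℕ) : ZMod n), s))))) := by
    rintro ⟨i, s⟩ hx
    rw [mem_filter, mem_product, mem_Icc] at hx
    obtain ⟨⟨_, hs1, hs2⟩, hne⟩ := hx
    simp only at hs1 hs2 hne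
    rw [mem_union, mem_union, mem_union]
    have hsr : (s : ℝ) + 2 ≤ n / 2 - 2 * κ * n := by
      have : (s : ℝ) ≤ h := by exact_mod_cast hs2
      linarith
    by_cases hc1 : Cen n z Δ κ i
    · by_cases hc2 : Cen n z Δ κ (i + ((s + 1 : ℕ) : ZMod n))
      · have hb1 := hc1.branch hF hκ0 hκ1 (ha i) hsr
        have hb2 := hc2.branch hF hκ0 hκ1 (ha _) hsr
        by_cases hN1 : Nx P (cz z i s) (cz z i (s + 1))
        · by_cases hN2 : Nx P (cz z (i + (s + 1 : ℕ)) (n - s)) (cz z (i + (s + 1 : ℕ)) (n - (s + 1)))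
          · exact absurd (key_step (by omega) hN1 hN2).symm hne
          · right; right; right
            refine Finset.mem_biUnion.2 ⟨i + ((s + 1 : ℕ) : ZMod n), Finset.mem_univ _, ?_⟩
            refine Finset.mem_image.2 ⟨s, ?_, ?_⟩
            · unfold Lb
              rw [mem_filter, mem_Ico]
              exact ⟨⟨hs1, hb2.2⟩, hN2⟩
            · rw [add_sub_cancel_right]
        · right; right; left
          refine Finset.mem_biUnion.2 ⟨i, Finset.mem_univ _, ?_⟩
          refine Finset.mem_image.2 ⟨s, ?_, rfl⟩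
          unfold Rb
          rw [mem_filter, mem_Ico]
          exact ⟨⟨hs1, hb1.1⟩, hN1⟩
      · right; left
        refine Finset.mem_image.2 ⟨(i + ((s + 1 : ℕ) : ZMod n), s), ?_, ?_⟩
        · rw [mem_product, mem_Icc, hNC, mem_filter]
          exact ⟨⟨Finset.mem_univ _, hc2⟩, hs1, hs2⟩
        · simp only [add_sub_cancel_right]
    · left
      rw [mem_product, mem_Icc, hNC, mem_filter]
      exact ⟨⟨Finset.mem_univ _, hc1⟩, hs1, hs2⟩
  have c0 := Finset.card_le_card hsub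
  have c1 := Finset.card_union_le (NC ×ˢ Finset.Icc 1 h)
    ((NC ×ˢ Finset.Icc 1 h).image (fun x => (x.1 - ((x.2 + 1 : ℕ) : ZMod n), x.2)) ∪
        ((Finset.univ : Finset (ZMod n)).biUnion (fun i => (Rb n z P (a i) i).image (fun s => (i, s))) ∪
        (Finset.univ : Finset (ZMod n)).biUnion (fun i => (Lb n z P (a i) i).image
          (fun s => (i - ((s + 1 : ℕ) : ZMod n), s)))))
  have c2 := Finset.card_union_le
    ((NC ×ˢ Finset.Icc 1 h).image (fun x => (x.1 - ((x.2 + 1 : ℕ) : ZMod n), x.2)))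
        ((Finset.univ : Finset (ZMod n)).biUnion (fun i => (Rb n z P (a i) i).image (fun s => (i, s))) ∪
        (Finset.univ : Finset (ZMod n)).biUnion (fun i => (Lb n z P (a i) i).image
          (fun s => (i - ((s + 1 : ℕ) : ZMod n), s))))
  have c3 := Finset.card_union_le
        ((Finset.univ : Finset (ZMod n)).biUnion (fun i => (Rb n z P (a i) i).image (fun s => (i, s))))
        ((Finset.univ : Finset (ZMod n)).biUnion (fun i => (Lb n z P (a i) i).image
          (fun s => (i - ((s + 1 : ℕ) : ZMod n), s))))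
  have c4 : (NC ×ˢ Finset.Icc 1 h).card = NC.card * h := by
    rw [Finset.card_product, Nat.card_Icc, Nat.add_sub_cancel]
  have c5 : ((NC ×ˢ Finset.Icc 1 h).image (fun x => (x.1 - ((x.2 + 1 : ℕ) : ZMod n), x.2))).card ≤ NC.card * h :=
    Finset.card_image_le.trans c4.le
  have c6 := card_biUnion_image_le (fun i => Rb n z P (a i) i) (Finset.univ : Finset (ZMod n)) (fun i s => (i, s))
  have c7 := card_biUnion_image_le (fun i => Lb n z P (a i) i) (Finset.univ : Finset (ZMod n))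
    (fun i s => (i - ((s + 1 : ℕ) : ZMod n), s))
  have c8 : ∑ i, (Rb n z P (a i) i).card ≤ ∑ i, (2 * us n (cz z i) P + ms n (cz z i) P) :=
    Finset.sum_le_sum fun i _ => card_Rb (ha i)
  have c9 : ∑ i, (Lb n z P (a i) i).card ≤ ∑ i, (2 * us n (cz z i) P + ms n (cz z i) P) :=
    Finset.sum_le_sum fun i _ => card_Lb (ha i)
  have c10 := sum_bad hF
  rw [← hP] at c10
  have ctot : (((Finset.univ : Finset (ZMod n)) ×ˢ Finset.Icc 1 h).filter
      (fun x : ZMod n × ℕ => cz z x.1 x.2 ≠ cz z (x.1 + 1) x.2)).card ≤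
      2 * (NC.card * h) + 2 * ∑ i, (2 * us n (cz z i) P + ms n (cz z i) P) := by
    omega
  have ctr : ((((Finset.univ : Finset (ZMod n)) ×ˢ Finset.Icc 1 h).filter
      (fun x : ZMod n × ℕ => cz z x.1 x.2 ≠ cz z (x.1 + 1) x.2)).card : ℝ) ≤
      2 * (NC.card * h) + 2 * ((∑ i, (2 * us n (cz z i) P + ms n (cz z i) P) : ℕ) : ℝ) := by
    exact_mod_cast ctot
  have c11 : (NC.card : ℝ) * h ≤ κ * n * (n / 2) :=
    mul_le_mul hncc hh2 (Nat.cast_nonneg _) hκn.le
  have c12 : 6 * κ ^ 2 * (n : ℝ) ^ 2 ≤ κ * n ^ 2 := by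
    have : 6 * κ ^ 2 ≤ κ := by nlinarith
    exact mul_le_mul_of_nonneg_right this (by positivity)
  nlinarith [c11, c10, ctr, c12]

end Pool.Agent.Lib.MP_0d8f69_coZ
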