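import Pool.Agent.Lib.MP_0d8f69_coZ.Shift2

/-!
MP_0d8f69_co, almost unimodal polygons: counting the exceptional pairs, continued.
-/

set_option autoImplicit false

namespace Pool.Agent.Lib.MP_0d8f69_coZ

open Finset

variable {n : ℕ} [NeZero n] {z : ZMod n → ℂ} {Δ : Finset ℝ} {κ : ℝ}

/-- almost all distances are invariant under the shift -/
theorem card_TB (hF : Fam n (cz z) Δ (κ ^ 2)) (hU : ∀ i, ∃ a, Uni n (cz z i) a) (hκ0 : 0 < κ) (hκ1 : κ ≤ 1 / 6)
    (hκn : 3 ≤ κ * n) :
    ((((Finset.univ : Finset (ZMod n)) ×ˢ (Finset.univ : Finset (ZMod n))).filter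
      (fun x : ZMod n × ZMod n => dist (z x.1) (z x.2) ≠ dist (z (x.1 + 1)) (z (x.2 + 1)))).card : ℝ) ≤
      10 * κ * n ^ 2 := by
  classical
  have hn : (18 : ℝ) ≤ n := by nlinarith
  have hx0 : 0 ≤ (n : ℝ) / 2 - 2 * κ * n - 2 := by nlinarith
  set h : ℕ := ⌊(n : ℝ) / 2 - 2 * κ * n - 2⌋₊ with hh
  have h1 : (h : ℝ) ≤ n / 2 - 2 * κ * n - 2 := Nat.floor_le hx0
  have h2 : (n : ℝ) / 2 - 2 * κ * n - 2 < h + 1 := Nat.lt_floor_add_one _
  have hSB := card_SB hF hU hκ0 hκ1 (h := h) (by linarith)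
  set SB := ((Finset.univ : Finset (ZMod n)) ×ˢ Finset.Icc 1 h).filter
      (fun x : ZMod n × ℕ => cz z x.1 x.2 ≠ cz z (x.1 + 1) x.2) with hSBd
  have hκn0 : 0 < κ * n := by linarith
  have h2h : 2 * h + 1 ≤ n := by
    have : ((2 * h + 1 : ℕ) : ℝ) ≤ n := by push_cast; linarith
    exact_mod_cast this
  have hsub : ((Finset.univ : Finset (ZMod n)) ×ˢ (Finset.univ : Finset (ZMod n))).filter
      (fun x : ZMod n × ZMod n => dist (z x.1) (z x.2) ≠ dist (z (x.1 + 1)) (z (x.2 + 1))) ⊆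
      SB.image (fun x => (x.1, x.1 + (x.2 : ZMod n))) ∪ (SB.image (fun x => (x.1 + (x.2 : ZMod n), x.1)) ∪
        ((Finset.univ : Finset (ZMod n)) ×ˢ Finset.Ioo h (n - h)).image (fun x => (x.1, x.1 + (x.2 : ZMod n)))) := by
    rintro ⟨i, j⟩ hx
    rw [mem_filter] at hx
    have hne := hx.2
    simp only at hne
    have hij : i ≠ j := by
      rintro rfl
      exact hne (by rw [dist_self, dist_self])
    have hs0 : (j - i).val ≠ 0 := by
      rw [Ne, ZMod.val_eq_zero, sub_eq_zero]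
      exact fun e => hij e.symm
    have hsn : (j - i).val < n := ZMod.val_lt _
    have hsj : i + (((j - i).val : ℕ) : ZMod n) = j := by
      rw [ZMod.natCast_zmod_val, add_sub_cancel]
    set s := (j - i).val with hs
    rw [mem_union, mem_union]
    by_cases c1 : s ≤ h
    · left
      refine Finset.mem_image.2 ⟨(i, s), ?_, by rw [hsj]⟩
      rw [hSBd, mem_filter, mem_product, mem_Icc]
      refine ⟨⟨Finset.mem_univ _, by omega, c1⟩, ?_⟩
      unfold cz
      simp only
      have e : i + 1 + (s : ZMod n) = j + 1 := by rw [← hsj]; ring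
      rw [e, hsj]
      exact hne
    · by_cases c2 : n - s ≤ h
      · right; left
        have hji : j + ((n - s : ℕ) : ZMod n) = i := by
          rw [Nat.cast_sub (by omega), ZMod.natCast_self, ← hsj]
          ring
        refine Finset.mem_image.2 ⟨(j, n - s), ?_, by simp only [hji]⟩
        rw [hSBd, mem_filter, mem_product, mem_Icc]
        refine ⟨⟨Finset.mem_univ _, by omega, c2⟩, ?_⟩
        unfold cz
        simp only
        have e : j + 1 + ((n - s : ℕ) : ZMod n) = i + 1 := by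
          rw [← hji]; ring
        rw [e, hji, dist_comm, dist_comm (z (j + 1))]
        exact hne
      · right; right
        refine Finset.mem_image.2 ⟨(i, s), ?_, by rw [hsj]⟩
        rw [mem_product, mem_Ioo]
        exact ⟨Finset.mem_univ _, by omega, by omega⟩
  have c0 := Finset.card_le_card hsub
  have c1 := Finset.card_union_le (SB.image (fun x => (x.1, x.1 + (x.2 : ZMod n))))
    (SB.image (fun x => (x.1 + (x.2 : ZMod n), x.1)) ∪
        ((Finset.univ : Finset (ZMod n)) ×ˢ Finset.Ioo h (n - h)).image (fun x => (x.1, x.1 + (x.2 : ZMod n))))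
  have c2 := Finset.card_union_le (SB.image (fun x => (x.1 + (x.2 : ZMod n), x.1)))
        (((Finset.univ : Finset (ZMod n)) ×ˢ Finset.Ioo h (n - h)).image (fun x => (x.1, x.1 + (x.2 : ZMod n))))
  have c3 : (SB.image (fun x => (x.1, x.1 + (x.2 : ZMod n)))).card ≤ SB.card := Finset.card_image_le
  have c4 : (SB.image (fun x => (x.1 + (x.2 : ZMod n), x.1))).card ≤ SB.card := Finset.card_image_le
  have c5 : (((Finset.univ : Finset (ZMod n)) ×ˢ Finset.Ioo h (n - h)).image
      (fun x => (x.1, x.1 + (x.2 : ZMod n)))).card ≤ n * (n - h - h - 1) := by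
    refine Finset.card_image_le.trans ?_
    rw [Finset.card_product, Nat.card_Ioo, Finset.card_univ, ZMod.card]
  have c6 : (((Finset.univ : Finset (ZMod n)) ×ˢ (Finset.univ : Finset (ZMod n))).filter
      (fun x : ZMod n × ZMod n => dist (z x.1) (z x.2) ≠ dist (z (x.1 + 1)) (z (x.2 + 1)))).card ≤
      2 * SB.card + n * (n - h - h - 1) := by omega
  have c7 : ((((Finset.univ : Finset (ZMod n)) ×ˢ (Finset.univ : Finset (ZMod n))).filter
      (fun x : ZMod n × ZMod n => dist (z x.1) (z x.2) ≠ dist (z (x.1 + 1)) (z (x.2 + 1)))).card : ℝ) ≤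
      2 * SB.card + n * ((n - h - h - 1 : ℕ) : ℝ) := by exact_mod_cast c6
  have c8 : ((n - h - h - 1 : ℕ) : ℝ) = n - 2 * h - 1 := by
    rw [Nat.sub_sub, Nat.sub_sub, Nat.cast_sub (by omega)]
    push_cast
    ring
  rw [c8] at c7
  have c9 : (n : ℝ) * (n - 2 * h - 1) ≤ n * (4 * κ * n + 5) := by
    refine mul_le_mul_of_nonneg_left ?_ (by linarith)
    linarith
  nlinarith

/-- few pairs are not surrounded by perfect steps -/
theorem card_VB (hF : Fam n (cz z) Δ (κ ^ 2)) (hU : ∀ i, ∃ a, Uni n (cz z i) a) (hκ0 : 0 < κ) (hκ1 : κ ≤ 1 / 6)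
    (hκn : 3 ≤ κ * n) {h : ℕ} (hh : (h : ℝ) + 2 ≤ n / 2 - 2 * κ * n) :
    ((((Finset.univ : Finset (ZMod n)) ×ˢ Finset.Icc 1 h).filter
      (fun x : ZMod n × ℕ => ¬ (2 ≤ x.2 ∧ Nx (PP n (cz z) Δ (κ ^ 2)) (cz z x.1 (x.2 - 1)) (cz z x.1 x.2) ∧
        Nx (PP n (cz z) Δ (κ ^ 2)) (cz z x.1 x.2) (cz z x.1 (x.2 + 1))))).card : ℝ) ≤ 2 * κ * n ^ 2 := by
  classical
  have hn : (2 : ℝ) ≤ n := by exact_mod_cast hF.pos
  choose a ha using hU
  set P := PP n (cz z) Δ (κ ^ 2) with hP
  set NC := (Finset.univ : Finset (ZMod n)).filter (fun i => ¬ Cen n z Δ κ i) with hNC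
  have hncc := card_not_cen hF hκ0
  rw [← hNC] at hncc
  have hκn0 : 0 < κ * n := by linarith
  have hh2 : (h : ℝ) ≤ n / 2 := by nlinarith
  have hsub : ((Finset.univ : Finset (ZMod n)) ×ˢ Finset.Icc 1 h).filter
      (fun x : ZMod n × ℕ => ¬ (2 ≤ x.2 ∧ Nx P (cz z x.1 (x.2 - 1)) (cz z x.1 x.2) ∧
        Nx P (cz z x.1 x.2) (cz z x.1 (x.2 + 1)))) ⊆
      (NC ×ˢ Finset.Icc 1 h) ∪ (((Finset.univ : Finset (ZMod n)) ×ˢ ({1} : Finset ℕ)) ∪
        ((Finset.univ : Finset (ZMod n)).biUnion (fun i => (Rb n z P (a i) i).image (fun s => (i, s))) ∪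
        (Finset.univ : Finset (ZMod n)).biUnion (fun i => (Rb n z P (a i) i).image (fun s => (i, s + 1))))) := by
    rintro ⟨i, s⟩ hx
    rw [mem_filter, mem_product, mem_Icc] at hx
    obtain ⟨⟨_, hs1, hs2⟩, hne⟩ := hx
    simp only at hs1 hs2 hne
    rw [mem_union, mem_union, mem_union]
    have hsr : (s : ℝ) + 2 ≤ n / 2 - 2 * κ * n := by
      have : (s : ℝ) ≤ h := by exact_mod_cast hs2
      linarith
    by_cases hc1 : Cen n z Δ κ i
    · have hb1 := hc1.branch hF hκ0 hκ1 (ha i) hsr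
      by_cases hs2' : 2 ≤ s
      · by_cases hN1 : Nx P (cz z i s) (cz z i (s + 1))
        · by_cases hN2 : Nx P (cz z i (s - 1)) (cz z i s)
          · exact absurd ⟨hs2', hN2, hN1⟩ hne
          · right; right; right
            refine Finset.mem_biUnion.2 ⟨i, Finset.mem_univ _, ?_⟩
            refine Finset.mem_image.2 ⟨s - 1, ?_, ?_⟩
            · unfold Rb
              rw [mem_filter, mem_Ico]
              have e : s - 1 + 1 = s := by omega
              rw [e]
              exact ⟨⟨by omega, by omega⟩, hN2⟩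
            · have e : s - 1 + 1 = s := by omega
              rw [e]
        · right; right; left
          refine Finset.mem_biUnion.2 ⟨i, Finset.mem_univ _, ?_⟩
          refine Finset.mem_image.2 ⟨s, ?_, rfl⟩
          unfold Rb
          rw [mem_filter, mem_Ico]
          exact ⟨⟨hs1, hb1.1⟩, hN1⟩
      · right; left
        rw [mem_product, mem_singleton]
        exact ⟨Finset.mem_univ _, by omega⟩
    · left
      rw [mem_product, mem_Icc, hNC, mem_filter]
      exact ⟨⟨Finset.mem_univ _, hc1⟩, hs1, hs2⟩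
  have c0 := Finset.card_le_card hsub
  have c1 := Finset.card_union_le (NC ×ˢ Finset.Icc 1 h) (((Finset.univ : Finset (ZMod n)) ×ˢ ({1} : Finset ℕ)) ∪
        ((Finset.univ : Finset (ZMod n)).biUnion (fun i => (Rb n z P (a i) i).image (fun s => (i, s))) ∪
        (Finset.univ : Finset (ZMod n)).biUnion (fun i => (Rb n z P (a i) i).image (fun s => (i, s + 1)))))
  have c2 := Finset.card_union_le ((Finset.univ : Finset (ZMod n)) ×ˢ ({1} : Finset ℕ))
        ((Finset.univ : Finset (ZMod n)).biUnion (fun i => (Rb n z P (a i) i).image (fun s => (i, s))) ∪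
        (Finset.univ : Finset (ZMod n)).biUnion (fun i => (Rb n z P (a i) i).image (fun s => (i, s + 1))))
  have c3 := Finset.card_union_le
        ((Finset.univ : Finset (ZMod n)).biUnion (fun i => (Rb n z P (a i) i).image (fun s => (i, s))))
        ((Finset.univ : Finset (ZMod n)).biUnion (fun i => (Rb n z P (a i) i).image (fun s => (i, s + 1))))
  have c4 : (NC ×ˢ Finset.Icc 1 h).card = NC.card * h := by
    rw [Finset.card_product, Nat.card_Icc, Nat.add_sub_cancel]
  have c5 : ((Finset.univ : Finset (ZMod n)) ×ˢ ({1} : Finset ℕ)).card = n := by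
    rw [Finset.card_product, Finset.card_singleton, mul_one, Finset.card_univ, ZMod.card]
  have c6 := card_biUnion_image_le (fun i => Rb n z P (a i) i) (Finset.univ : Finset (ZMod n)) (fun i s => (i, s))
  have c7 := card_biUnion_image_le (fun i => Rb n z P (a i) i) (Finset.univ : Finset (ZMod n)) (fun i s => (i, s + 1))
  have c8 : ∑ i, (Rb n z P (a i) i).card ≤ ∑ i, (2 * us n (cz z i) P + ms n (cz z i) P) :=
    Finset.sum_le_sum fun i _ => card_Rb (ha i)
  have c10 := sum_bad hF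
  rw [← hP] at c10
  have ctot : (((Finset.univ : Finset (ZMod n)) ×ˢ Finset.Icc 1 h).filter
      (fun x : ZMod n × ℕ => ¬ (2 ≤ x.2 ∧ Nx P (cz z x.1 (x.2 - 1)) (cz z x.1 x.2) ∧
        Nx P (cz z x.1 x.2) (cz z x.1 (x.2 + 1))))).card ≤
      NC.card * h + n + 2 * ∑ i, (2 * us n (cz z i) P + ms n (cz z i) P) := by
    omega
  have ctr : ((((Finset.univ : Finset (ZMod n)) ×ˢ Finset.Icc 1 h).filter
      (fun x : ZMod n × ℕ => ¬ (2 ≤ x.2 ∧ Nx P (cz z x.1 (x.2 - 1)) (cz z x.1 x.2) ∧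
        Nx P (cz z x.1 x.2) (cz z x.1 (x.2 + 1))))).card : ℝ) ≤
      NC.card * h + n + 2 * ((∑ i, (2 * us n (cz z i) P + ms n (cz z i) P) : ℕ) : ℝ) := by
    exact_mod_cast ctot
  have c11 : (NC.card : ℝ) * h ≤ κ * n * (n / 2) :=
    mul_le_mul hncc hh2 (Nat.cast_nonneg _) hκn0.le
  have c12 : 6 * κ ^ 2 * (n : ℝ) ^ 2 ≤ κ * n ^ 2 := by
    have : 6 * κ ^ 2 ≤ κ := by nlinarith
    exact mul_le_mul_of_nonneg_right this (by positivity)
  have c13 : (n : ℝ) ≤ κ * n ^ 2 / 3 := by nlinarith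
  nlinarith [c11, c10, ctr, c12, c13]

end Pool.Agent.Lib.MP_0d8f69_coZ
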